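import Pool.Agent.H60.EC.Grp

set_option autoImplicit false
set_option linter.unusedSectionVars false

/-!
The elementary abelian group acting on `GG S`; regularity, and the class of `H`.
-/

namespace Pool.Agent.H60.EC

open scoped commutatorElement
open Sys

/-- the acting group: `(1 + |J|)`-tuples of `p`-th roots of unity -/
abbrev VV (p : ℕ) (k J : Type) [Field k] : Type :=
  ↥(rootsOfUnity p k) × (J → ↥(rootsOfUnity p k))

/-- the inclusion of `VV` in the torus -/
def vhom (p : ℕ) (k J : Type) [Field k] : VV p k J →* kˣ × (J → kˣ) :=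
  MonoidHom.prodMap (rootsOfUnity p k).subtype ((rootsOfUnity p k).subtype.compLeft J)

lemma vv_pow {k J : Type} [Field k] (p : ℕ) (v : VV p k J) : v ^ p = 1 := by
  have h : ∀ x : ↥(rootsOfUnity p k), x ^ p = 1 := by
    rintro ⟨x, hx⟩
    rw [mem_rootsOfUnity] at hx
    exact Subtype.ext hx
  refine Prod.ext (h _) ?_
  funext j
  exact h _

lemma vv_card {k J : Type} [Field k] [Fintype J] (p : ℕ) [NeZero p] (w : k)
    (hw : IsPrimitiveRoot w p) : Nat.card (VV p k J) = p ^ (Fintype.card J + 1) := by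
  have h : Nat.card ↥(rootsOfUnity p k) = p := hw.card_rootsOfUnity
  rw [Nat.card_prod, Nat.card_fun, h, pow_succ, Nat.card_eq_fintype_card]
  ring

variable {k A ι J : Type} [Field k] [CharP k 2] [CommRing A] [Algebra k A] [Fintype ι] [Fintype J]
variable {S : Sys k A ι J}

namespace GG

instance (p : ℕ) : MulDistribMulAction (VV p k J) (GG S) :=
  MulDistribMulAction.compHom (GG S) (vhom p k J)

lemma vv_smul (p : ℕ) (v : VV p k J) (g : GG S) : v • g = (vhom p k J v) • g := rfl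

lemma decomp (j : J) (u : J → k) (hu : ∀ j', j' ≠ j → u j' = 1) (m : A) :
    ∃ m0 m1 : A, m = m0 + S.x j * m1 ∧ S.sc 1 u m0 = m0 ∧ S.sc 1 u m1 = m1 := by
  have hm : m ∈ Algebra.adjoin k (Set.range S.t ∪ Set.range S.x) := by
    rw [S.gen]; trivial
  induction hm using Algebra.adjoin_induction with
  | mem y hy =>
    rcases hy with ⟨i, rfl⟩ | ⟨j', rfl⟩
    · exact ⟨S.t i, 0, by simp, by simp [S.sc_t], by simp⟩
    · by_cases hj : j' = j
      · subst hj
        exact ⟨0, 1, by simp, by simp, by simp⟩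
      · exact ⟨S.x j', 0, by simp, by simp [S.sc_x, hu j' hj], by simp⟩
  | algebraMap r => exact ⟨algebraMap k A r, 0, by simp, by simp, by simp⟩
  | add y z _ _ hy hz =>
    obtain ⟨y0, y1, h1, h2, h3⟩ := hy
    obtain ⟨z0, z1, h4, h5, h6⟩ := hz
    refine ⟨y0 + z0, y1 + z1, ?_, ?_, ?_⟩
    · rw [h1, h4]; ring
    · rw [map_add, h2, h5]
    · rw [map_add, h3, h6]
  | mul y z _ _ hy hz =>
    obtain ⟨y0, y1, h1, h2, h3⟩ := hy
    obtain ⟨z0, z1, h4, h5, h6⟩ := hz
    refine ⟨y0 * z0, y0 * z1 + y1 * z0, ?_, ?_, ?_⟩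
    · rw [h1, h4]
      linear_combination (y1 * z1) * S.x_sq j
    · rw [map_mul, h2, h5]
    · rw [map_add, map_mul, map_mul, h2, h3, h5, h6]

lemma no_fixed (j : J) (w : k) (hw1 : w ≠ 1) (hw2 : w ^ 2 ≠ 1) (hw0 : w ≠ 0) (u : J → k)
    (hu : ∀ j', j' ≠ j → u j' = 1) (huj : u j = w) (m : A) (h : w • S.sc 1 u m = m) : m = 0 := by
  obtain ⟨m0, m1, h1, h2, h3⟩ := decomp (S := S) j u hu m
  have h4 : S.sc 1 u m = m0 + w • (S.x j * m1) := by
    rw [h1, map_add, map_mul, h2, h3, S.sc_x, huj, smul_mul_assoc]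
  have e1 : (w - 1) • m0 + (w ^ 2 - 1) • (S.x j * m1) = 0 := by
    have : w • (m0 + w • (S.x j * m1)) = m0 + S.x j * m1 := by rw [← h4, h, ← h1]
    rw [smul_add, smul_smul] at this
    rw [sub_smul, sub_smul, one_smul, one_smul, pow_two]
    linear_combination this
  have e2 : (w - 1) • m0 + (w * (w ^ 2 - 1)) • (S.x j * m1) = 0 := by
    have := congrArg (S.sc 1 u) e1
    rw [map_add, map_smul, map_smul, map_mul, h2, h3, S.sc_x, huj, map_zero, smul_mul_assoc,
      smul_smul] at this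
    rwa [mul_comm w]
  have e3 : ((w - 1) * (w ^ 2 - 1)) • (S.x j * m1) = 0 := by
    have : ((w - 1) * (w ^ 2 - 1)) • (S.x j * m1) =
        ((w * (w ^ 2 - 1)) • (S.x j * m1)) - ((w ^ 2 - 1) • (S.x j * m1)) := by
      rw [← sub_smul]; congr 1; ring
    rw [this]
    linear_combination e2 - e1
  have e4 : S.x j * m1 = 0 := (smul_eq_zero.mp e3).resolve_left
    (mul_ne_zero (sub_ne_zero.mpr hw1) (sub_ne_zero.mpr hw2))
  rw [e4, smul_zero, add_zero] at e1
  have e5 : m0 = 0 := (smul_eq_zero.mp e1).resolve_left (sub_ne_zero.mpr hw1)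
  rw [h1, e4, e5, add_zero]

lemma fpf [Nonempty J] (p : ℕ) (hp : p.Prime) (hp2 : p ≠ 2) (w : kˣ) (hw : IsPrimitiveRoot w p)
    (g : GG S) (h : ∀ v : VV p k J, v • g = g) : g = 1 := by
  classical
  obtain ⟨j⟩ := ‹Nonempty J›
  have hmem : w ∈ rootsOfUnity p k := (mem_rootsOfUnity p w).mpr hw.pow_eq_one
  have hw1 : (w : k) ≠ 1 := by
    intro h1
    exact hw.ne_one hp.one_lt (Units.ext h1)
  have hw2 : (w : k) ^ 2 ≠ 1 := by
    intro h1
    have : w ^ 2 = 1 := Units.ext (by simpa using h1)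
    have h3 := (hw.pow_eq_one_iff_dvd 2).mp this
    have := (Nat.prime_dvd_prime_iff_eq hp Nat.prime_two).mp h3
    exact hp2 this
  have hA := h (⟨w, hmem⟩, 1)
  have hB := h (1, Pi.mulSingle j ⟨w, hmem⟩)
  rw [vv_smul] at hA hB
  have eA : vhom p k J (⟨w, hmem⟩, 1) = (w, 1) := rfl
  have eB : vhom p k J (1, Pi.mulSingle j ⟨w, hmem⟩) = (1, Pi.mulSingle j w) := by
    refine Prod.ext rfl ?_
    funext j'
    change ((Pi.mulSingle j (⟨w, hmem⟩ : ↥(rootsOfUnity p k)) : J → ↥(rootsOfUnity p k)) j' : kˣ) =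
      (Pi.mulSingle j w : J → kˣ) j'
    by_cases hj : j' = j
    · subst hj; simp
    · simp [Pi.mulSingle_eq_of_ne hj]
  rw [eA] at hA
  rw [eB] at hB
  apply GG.ext
  · have h1 := congrArg GG.m hB
    rw [smul_m] at h1
    have hom : om ((1, Pi.mulSingle j w) : kˣ × (J → kˣ)) = (w : k) := by
      simp [om]
    rw [hom] at h1
    have := no_fixed (S := S) j (w : k) hw1 hw2 (Units.ne_zero w)
      (fun j' => ((Pi.mulSingle j w : J → kˣ) j' : k)) (by
        intro j' hj
        simp [Pi.mulSingle_eq_of_ne hj]) (by simp) g.m (by simpa using h1)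
    rw [this]; rfl
  · have h1 := congrArg GG.a hA
    rw [smul_a] at h1
    funext j' i
    have h2 := congrFun (congrFun h1 j') i
    simp only [Pi.smul_apply, smul_eq_mul, Pi.one_apply, inv_one, mul_one] at h2
    have h3 : ((w : k) - 1) * g.a j' i = 0 := by rw [sub_mul, h2, one_mul, sub_self]
    exact (mul_eq_zero.mp h3).resolve_left (sub_ne_zero.mpr hw1)
  · have h1 := congrArg GG.b hA
    rw [smul_b] at h1
    funext j' i
    have h2 := congrFun (congrFun h1 j') i
    simp only [Pi.smul_apply, smul_eq_mul, Pi.one_apply, mul_one] at h2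
    have h3 : ((w : k) - 1) * g.b j' i = 0 := by rw [sub_mul, h2, one_mul, sub_self]
    exact (mul_eq_zero.mp h3).resolve_left (sub_ne_zero.mpr hw1)
  · have h1 := congrArg GG.C hA
    rw [smul_C] at h1
    funext i i'
    have h2 := congrFun (congrFun h1 i) i'
    simp only at h2
    have h3 : ((w : k) ^ 2 - 1) * g.C i i' = 0 := by rw [sub_mul, h2, one_mul, sub_self]
    exact (mul_eq_zero.mp h3).resolve_left (sub_ne_zero.mpr hw2)

lemma X1_add (a a' : J → ι → k) : (X1 S a)⁻¹ * X1 S a' = X1 S (a + a') := by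
  apply GG.ext
  · simp [X1]
  · simp [X1]
  · simp [X1]
  · funext i i'; simp [X1]

lemma X2_add (a a' : J → ι → k) : (X2 S a)⁻¹ * X2 S a' = X2 S (a + a') := by
  apply GG.ext
  · simp [X2]
  · simp [X2]
  · simp [X2]
  · funext i i'; simp [X2]

lemma smul_X1 [DecidableEq J] (u : kˣ × (J → kˣ)) (j : J) (a : ι → k) :
    u • X1 S (Pi.single j a) = X1 S (Pi.single j (((u.1 * (u.2 j)⁻¹ : kˣ) : k) • a)) := by
  apply GG.ext
  · simp [X1, smul_m]
  · funext j'
    rw [smul_a]
    by_cases hj : j' = j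
    · subst hj; simp [X1]
    · simp [X1, Pi.single_eq_of_ne hj]
  · funext j'; simp [X1, smul_b]
  · funext i i'; simp [X1, smul_C]

lemma smul_X2 [DecidableEq J] (u : kˣ × (J → kˣ)) (j : J) (a : ι → k) :
    u • X2 S (Pi.single j a) = X2 S (Pi.single j (((u.1 * (u.2 j) : kˣ) : k) • a)) := by
  apply GG.ext
  · simp [X2, smul_m]
  · funext j'; simp [X2, smul_a]
  · funext j'
    rw [smul_b]
    by_cases hj : j' = j
    · subst hj; simp [X2]
    · simp [X2, Pi.single_eq_of_ne hj]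
  · funext i i'; simp [X2, smul_C]

lemma inv_smul_add (c : k) (hc1 : c + 1 ≠ 0) (a : ι → k) :
    ((c + 1)⁻¹ • a) + c • ((c + 1)⁻¹ • a) = a := by
  rw [smul_smul, ← add_smul]
  have : (c + 1)⁻¹ + c * (c + 1)⁻¹ = 1 := by
    field_simp
    ring
  rw [this, one_smul]

lemma add_one_ne (x : kˣ) (hx : x ≠ 1) : (x : k) + 1 ≠ 0 := by
  intro h
  apply hx
  apply Units.ext
  rw [Units.val_one]
  have h1 : (1 : k) + 1 = 0 := CharTwo.add_self_eq_zero 1
  linear_combination h - h1

lemma X1_mem [DecidableEq J] (p : ℕ) (v : VV p k J) (j : J)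
    (hv : ((vhom p k J v).1 * ((vhom p k J v).2 j)⁻¹) ≠ 1) (a : ι → k) :
    X1 S (Pi.single j a) ∈ commWith (GG S) (VV p k J) v := by
  set x : kˣ := (vhom p k J v).1 * ((vhom p k J v).2 j)⁻¹ with hx
  have hc1 := add_one_ne x hv
  refine Subgroup.subset_closure ⟨X1 S (Pi.single j (((x : k) + 1)⁻¹ • a)), ?_⟩
  rw [vv_smul, smul_X1, ← hx, X1_add, ← Pi.single_add, inv_smul_add _ hc1]

lemma X2_mem [DecidableEq J] (p : ℕ) (v : VV p k J) (j : J)
    (hv : ((vhom p k J v).1 * ((vhom p k J v).2 j)) ≠ 1) (a : ι → k) :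
    X2 S (Pi.single j a) ∈ commWith (GG S) (VV p k J) v := by
  set x : kˣ := (vhom p k J v).1 * ((vhom p k J v).2 j) with hx
  have hc1 := add_one_ne x hv
  refine Subgroup.subset_closure ⟨X2 S (Pi.single j (((x : k) + 1)⁻¹ • a)), ?_⟩
  rw [vv_smul, smul_X2, ← hx, X2_add, ← Pi.single_add, inv_smul_add _ hc1]

lemma eq_one_of [Nonempty J] (p : ℕ) (hp : p.Prime) (hp2 : p ≠ 2) (v : VV p k J)
    (h1 : ∀ j, ((vhom p k J v).1 * ((vhom p k J v).2 j)⁻¹) = 1)
    (h2 : ∀ j, ((vhom p k J v).1 * (vhom p k J v).2 j) = 1) : v = 1 := by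
  obtain ⟨⟨x, hx⟩, y⟩ := v
  change ∀ j, x * ((y j : kˣ))⁻¹ = 1 at h1
  change ∀ j, x * ((y j : kˣ)) = 1 at h2
  rw [mem_rootsOfUnity] at hx
  have hxy : ∀ j, x = y j := fun j => by
    have := h1 j
    rwa [mul_inv_eq_one] at this
  have hcop : Nat.Coprime 2 p := by
    rw [Nat.coprime_primes Nat.prime_two hp]
    exact fun h => hp2 h.symm
  have h3 : x ^ 2 = 1 := by
    obtain ⟨j⟩ := ‹Nonempty J›
    have := h2 j
    rw [← hxy j] at this
    rw [pow_two]; exact this
  have h4 : x ^ (Nat.gcd 2 p) = 1 := by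
    rw [pow_gcd_eq_one]
    exact ⟨h3, hx⟩
  rw [hcop.gcd_eq_one, pow_one] at h4
  subst h4
  refine Prod.ext rfl ?_
  funext j
  exact Subtype.ext (hxy j).symm

lemma Z_mem [Nonempty J] (p : ℕ) (hp : p.Prime) (hp2 : p ≠ 2) (a b : ι → k) :
    Zz S (fun i i' => a i * b i') ∈ interH (GG S) (VV p k J) := by
  classical
  unfold interH
  simp only [Subgroup.mem_iInf]
  intro v hv
  have hn := commWith_normal (GG S) (VV p k J) v
  have hex : (∃ j, ((vhom p k J v).1 * ((vhom p k J v).2 j)⁻¹) ≠ 1) ∨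
      (∃ j, ((vhom p k J v).1 * (vhom p k J v).2 j) ≠ 1) := by
    by_contra hcon
    push Not at hcon
    exact hv (eq_one_of p hp hp2 v hcon.1 hcon.2)
  rcases hex with ⟨j, hj⟩ | ⟨j, hj⟩
  · rw [← ot_single j, ← comm_X1_X2, commutatorElement_def]
    have hm := X1_mem (S := S) p v j hj a
    have h2 := hn.conj_mem _ (inv_mem hm) (X2 S (Pi.single j b))
    have h3 := mul_mem hm h2
    convert h3 using 1
    group
  · rw [← ot_single j, ← comm_X1_X2, commutatorElement_def]
    have hm := X2_mem (S := S) p v j hj b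
    exact mul_mem (hn.conj_mem _ hm _) (inv_mem hm)

end GG

section final
open GG

lemma T_single [DecidableEq ι] (S : Sys k A ι J) (i : ι) :
    S.T (Pi.single i 1) = S.t i := by
  unfold Sys.T
  rw [Finset.sum_eq_single i]
  · simp
  · intro j _ hj
    simp [hj]
  · simp

/-- the product of two of the variables -/
def uu {N : ℕ} (S : Sys k A (Fin N × Bool) J) (j : Fin N) : A := S.t (j, true) * S.t (j, false)

lemma step {N : ℕ} (S : Sys k A (Fin N × Bool) J) (m : A) (j : Fin N) :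
    ⁅Mm S m, Zz S (fun i i' => (Pi.single (j, true) 1 : Fin N × Bool → k) i *
      (Pi.single (j, false) 1 : Fin N × Bool → k) i')⁆ = Mm S (uu S j * m) := by
  rw [comm_M_Z, T_single, T_single]
  rfl

/-- products of the first `n` of the elements `uu` -/
noncomputable def ee {N : ℕ} (S : Sys k A (Fin N × Bool) J) (n : ℕ) : A :=
  ∏ j ∈ Finset.univ.filter (fun j : Fin N => j.val < n), uu S j

lemma ee_zero {N : ℕ} (S : Sys k A (Fin N × Bool) J) : ee S 0 = 1 := by
  simp [ee]

lemma ee_succ {N : ℕ} (S : Sys k A (Fin N × Bool) J) (n : ℕ) (hn : n < N) :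
    ee S (n + 1) = uu S ⟨n, hn⟩ * ee S n := by
  unfold ee
  have : Finset.univ.filter (fun j : Fin N => j.val < n + 1) =
      insert ⟨n, hn⟩ (Finset.univ.filter (fun j : Fin N => j.val < n)) := by
    ext j
    simp only [Finset.mem_filter, Finset.mem_univ, true_and, Finset.mem_insert, Fin.ext_iff]
    omega
  rw [this, Finset.prod_insert (by simp)]

lemma ee_full {N : ℕ} (S : Sys k A (Fin N × Bool) J) : ee S N = ∏ x, S.t x := by
  unfold ee
  rw [Fintype.prod_prod_type]
  have : Finset.univ.filter (fun j : Fin N => j.val < N) = Finset.univ := by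
    ext j; simp
  rw [this]
  refine Finset.prod_congr rfl fun j _ => ?_
  rw [Fintype.prod_bool]
  rfl

lemma mem_series [Nonempty J] {N : ℕ} (S : Sys k A (Fin N × Bool) J) (p : ℕ) (hp : p.Prime)
    (hp2 : p ≠ 2) (n : ℕ) (hn : n < N) :
    Mm S (ee S (n + 1)) ∈ (interH (GG S) (VV p k J)).lowerCentralSeries n := by
  induction n with
  | zero =>
    rw [Subgroup.lowerCentralSeries_zero, ee_succ S 0 hn, ← step, commutatorElement_def]
    have hz := Z_mem (S := S) p hp hp2 (Pi.single ((⟨0, hn⟩ : Fin N), true) 1 : Fin N × Bool → k)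
      (Pi.single ((⟨0, hn⟩ : Fin N), false) 1 : Fin N × Bool → k)
    have hnorm := interH_normal (GG S) (VV p k J)
    exact mul_mem (hnorm.conj_mem _ hz _) (inv_mem hz)
  | succ n ih =>
    rw [Subgroup.lowerCentralSeries_succ, ee_succ S (n + 1) hn, ← step]
    exact Subgroup.commutator_mem_commutator (ih (by omega)) (Z_mem (S := S) p hp hp2 _ _)

lemma Mm_ne_one (S : Sys k A ι J) (m : A) (hm : m ≠ 0) : Mm S m ≠ 1 := by
  intro h
  exact hm (congrArg GG.m h)

lemma lcs_ne_bot [Nonempty J] {N : ℕ} (S : Sys k A (Fin N × Bool) J) (hS : ∏ x, S.t x ≠ 0)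
    (p : ℕ) (hp : p.Prime) (hp2 : p ≠ 2) (n : ℕ) (hn : n < N) :
    (interH (GG S) (VV p k J)).lowerCentralSeries n ≠ ⊥ := by
  intro h
  have h1 := mem_series S p hp hp2 (N - 1) (by omega)
  have h2 := (Subgroup.lowerCentralSeries_antitone (interH (GG S) (VV p k J)))
    (show n ≤ N - 1 by omega) h1
  rw [h, Subgroup.mem_bot] at h2
  apply Mm_ne_one S _ _ h2
  rw [Nat.sub_add_cancel (by omega), ee_full]
  exact hS

lemma Z_mem_derived [Nonempty J] (S : Sys k A ι J) (a b : ι → k) :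
    Zz S (fun i i' => a i * b i') ∈ derivedSeries (GG S) 1 := by
  classical
  obtain ⟨j⟩ := ‹Nonempty J›
  rw [← ot_single j, ← comm_X1_X2, derivedSeries_succ, derivedSeries_zero]
  exact Subgroup.commutator_mem_commutator trivial trivial

lemma derived_ne [Nonempty J] {N : ℕ} (S : Sys k A (Fin N × Bool) J) (hS : ∏ x, S.t x ≠ 0)
    (hN : 2 ≤ N) : derivedSeries (GG S) 2 ≠ ⊥ := by
  intro h
  have h1 : Mm S (ee S 1) ∈ derivedSeries (GG S) 1 := by
    rw [ee_succ S 0 (by omega), ← step, derivedSeries_succ, derivedSeries_zero]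
    exact Subgroup.commutator_mem_commutator trivial trivial
  have h2 : Mm S (ee S 2) ∈ derivedSeries (GG S) 2 := by
    rw [ee_succ S 1 (by omega), ← step, derivedSeries_succ]
    exact Subgroup.commutator_mem_commutator h1 (Z_mem_derived S _ _)
  rw [h, Subgroup.mem_bot] at h2
  apply Mm_ne_one S _ _ h2
  intro h3
  apply hS
  rw [← ee_full]
  have : ∀ n, 2 ≤ n → n ≤ N → ee S n = 0 := by
    intro n hn
    induction n, hn using Nat.le_induction with
    | base => intro _; exact h3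
    | succ n hn ih =>
      intro hn'
      rw [ee_succ S n (by omega), ih (by omega), mul_zero]
  exact this N hN le_rfl

lemma faithful [Nonempty ι] [Nonempty J] (S : Sys k A ι J)
    (p : ℕ) (hp : p.Prime) (hp2 : p ≠ 2) (v : VV p k J) (h : ∀ g : GG S, v • g = g) : v = 1 := by
  classical
  obtain ⟨i⟩ := ‹Nonempty ι›
  apply eq_one_of p hp hp2 v
  · intro j
    have h1 := congrFun (congrFun (congrArg GG.a (h (X1 S (Pi.single j 1)))) j) i
    rw [vv_smul, smul_a] at h1
    apply Units.ext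
    simpa [X1] using h1
  · intro j
    have h1 := congrFun (congrFun (congrArg GG.b (h (X2 S (Pi.single j 1)))) j) i
    rw [vv_smul, smul_b] at h1
    apply Units.ext
    simpa [X2] using h1

end final

/-- the truncated polynomial ring gives a system -/
noncomputable def trSys (k ι J : Type) [Field k] [CharP k 2] [Fintype ι] :
    Sys k (TR k (ι ⊕ J)) ι J where
  t i := tau k (ι ⊕ J) (Sum.inl i)
  x j := tau k (ι ⊕ J) (Sum.inr j)
  t_sq _ := tau_sq _
  x_sq _ := tau_sq _
  gen := by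
    rw [← adjoin_tau (k := k) (ι := ι ⊕ J)]
    congr 1
    ext y
    constructor
    · rintro (⟨i, rfl⟩ | ⟨j, rfl⟩)
      · exact ⟨_, rfl⟩
      · exact ⟨_, rfl⟩
    · rintro ⟨i | j, rfl⟩
      · exact Or.inl ⟨_, rfl⟩
      · exact Or.inr ⟨_, rfl⟩
  sh a := TRlift (Sum.elim (fun i => tau k (ι ⊕ J) (Sum.inl i))
    (fun j => tau k (ι ⊕ J) (Sum.inr j) + ∑ i, a j i • tau k (ι ⊕ J) (Sum.inl i))) (by
      rintro (i | j)
      · exact tau_sq _
      · simp only [Sum.elim_inr]
        have h1 := tau_sq (k := k) (ι := ι ⊕ J) (Sum.inr j)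
        have h2 : (∑ i, a j i • tau k (ι ⊕ J) (Sum.inl i)) *
            (∑ i, a j i • tau k (ι ⊕ J) (Sum.inl i)) = 0 := by
          apply sum_sq_zero _ _ _ (two_R k _)
          intro i
          rw [smul_mul_smul_comm, tau_sq, smul_zero]
        have h3 := two_R k (TR k (ι ⊕ J))
        linear_combination h1 + h2 + (tau k (ι ⊕ J) (Sum.inr j) *
          (∑ i, a j i • tau k (ι ⊕ J) (Sum.inl i))) * h3)
  sh_t a i := by rw [TRlift_tau]; rfl
  sh_x a j := by rw [TRlift_tau]; rfl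
  sc l u := TRlift (Sum.elim (fun i => l • tau k (ι ⊕ J) (Sum.inl i))
    (fun j => u j • tau k (ι ⊕ J) (Sum.inr j))) (by
      rintro (i | j)
      · simp only [Sum.elim_inl]
        rw [smul_mul_smul_comm, tau_sq, smul_zero]
      · simp only [Sum.elim_inr]
        rw [smul_mul_smul_comm, tau_sq, smul_zero])
  sc_t l u i := by rw [TRlift_tau]; rfl
  sc_x l u j := by rw [TRlift_tau]; rfl

lemma trSys_prod (k ι J : Type) [Field k] [CharP k 2] [Fintype ι] [Fintype J] :
    ∏ i, (trSys k ι J).t i ≠ 0 := by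
  intro h
  apply prod_tau_ne_zero (k := k) (ι := ι ⊕ J)
  rw [Fintype.prod_sum_type]
  have : ∏ i : ι, tau k (ι ⊕ J) (Sum.inl i) = 0 := h
  rw [this, zero_mul]

end Pool.Agent.H60.EC
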