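import Pool.Agent.H60.EC.Ring

set_option autoImplicit false
set_option linter.unusedSectionVars false

/-!
Congruence subgroups of `SL_p` over the truncated polynomial ring, with a regular action of
`C_p × C_p`, of every derived length.
-/

namespace Pool.Agent.H60.EC

open Matrix
open scoped commutatorElement

section pw
variable {k : Type} [Field k] {p : ℕ} [Fact p.Prime]

/-- powers of a `p`-th root of unity with exponent in `ZMod p` -/
def pw (u : ↥(rootsOfUnity p k)) (a : ZMod p) : k := ((u : kˣ) : k) ^ a.val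

lemma root_pow (u : ↥(rootsOfUnity p k)) : (((u : kˣ) : k)) ^ p = 1 := by
  have := (mem_rootsOfUnity p (u : kˣ)).mp u.2
  rw [← Units.val_pow_eq_pow_val, this, Units.val_one]

lemma pw_add (u : ↥(rootsOfUnity p k)) (a b : ZMod p) : pw u (a + b) = pw u a * pw u b := by
  unfold pw
  rw [ZMod.val_add, ← pow_eq_pow_mod _ (root_pow u), pow_add]

@[simp] lemma pw_zero (u : ↥(rootsOfUnity p k)) : pw u (0 : ZMod p) = 1 := by simp [pw]

lemma pw_mul (u u' : ↥(rootsOfUnity p k)) (a : ZMod p) : pw (u * u') a = pw u a * pw u' a := by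
  simp [pw, mul_pow]

@[simp] lemma pw_one (a : ZMod p) : pw (1 : ↥(rootsOfUnity p k)) a = 1 := by simp [pw]

lemma pw_ne_zero (u : ↥(rootsOfUnity p k)) (a : ZMod p) : pw u a ≠ 0 := by
  simp [pw]

lemma pw_sub (u : ↥(rootsOfUnity p k)) (a b : ZMod p) :
    pw u (a - b) = pw u a * (pw u b)⁻¹ := by
  rw [eq_mul_inv_iff_mul_eq₀ (pw_ne_zero u b), ← pw_add, sub_add_cancel]

end pw

section mat
variable {k R : Type} [Field k] [CommRing R] [Algebra k R] {p : ℕ} [Fact p.Prime]

/-- conjugation by a power of the cyclic shift and a diagonal matrix -/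
def actM (s : ZMod p) (u : ↥(rootsOfUnity p k)) (g : Matrix (ZMod p) (ZMod p) R) :
    Matrix (ZMod p) (ZMod p) R :=
  Matrix.of fun i j => pw u (i - j) • g (i + s) (j + s)

@[simp] lemma actM_apply (s : ZMod p) (u : ↥(rootsOfUnity p k)) (g : Matrix (ZMod p) (ZMod p) R)
    (i j : ZMod p) : actM s u g i j = pw u (i - j) • g (i + s) (j + s) := rfl

lemma one_shift (s i j : ZMod p) :
    (1 : Matrix (ZMod p) (ZMod p) R) (i + s) (j + s) = (1 : Matrix (ZMod p) (ZMod p) R) i j := by
  simp [Matrix.one_apply]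

lemma pw_one_apply (u : ↥(rootsOfUnity p k)) (i j : ZMod p) :
    pw u (i - j) • (1 : Matrix (ZMod p) (ZMod p) R) i j = (1 : Matrix (ZMod p) (ZMod p) R) i j := by
  by_cases h : i = j
  · subst h; simp
  · simp [Matrix.one_apply_ne h]

lemma actM_one (s : ZMod p) (u : ↥(rootsOfUnity p k)) :
    actM s u (1 : Matrix (ZMod p) (ZMod p) R) = 1 := by
  ext i j
  rw [actM_apply, one_shift, pw_one_apply]

lemma actM_mul (s : ZMod p) (u : ↥(rootsOfUnity p k)) (g h : Matrix (ZMod p) (ZMod p) R) :
    actM s u (g * h) = actM s u g * actM s u h := by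
  ext i j
  rw [actM_apply, Matrix.mul_apply, Matrix.mul_apply, Finset.smul_sum,
    ← Equiv.sum_comp (Equiv.addRight s)]
  refine Finset.sum_congr rfl fun l _ => ?_
  rw [actM_apply, actM_apply, smul_mul_smul_comm, ← pw_add]
  congr 2
  ring

lemma actM_actM (s s' : ZMod p) (u u' : ↥(rootsOfUnity p k)) (g : Matrix (ZMod p) (ZMod p) R) :
    actM s u (actM s' u' g) = actM (s + s') (u * u') g := by
  ext i j
  rw [actM_apply, actM_apply, actM_apply, smul_smul, pw_mul]
  have : i + s - (j + s) = i - j := by ring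
  rw [this, add_assoc, add_assoc]

lemma actM_zero_one (g : Matrix (ZMod p) (ZMod p) R) :
    actM (0 : ZMod p) (1 : ↥(rootsOfUnity p k)) g = g := by
  ext i j
  simp

lemma det_actM (s : ZMod p) (u : ↥(rootsOfUnity p k)) (g : Matrix (ZMod p) (ZMod p) R) :
    (actM s u g).det = g.det := by
  have h1 : actM s u g = Matrix.diagonal (fun i => algebraMap k R (pw u i)) *
      (g.submatrix (Equiv.addRight s) (Equiv.addRight s)) *
      Matrix.diagonal (fun i => algebraMap k R (pw u i)⁻¹) := by
    ext i j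
    rw [Matrix.mul_diagonal, Matrix.diagonal_mul, actM_apply, pw_sub, Matrix.submatrix_apply,
      Algebra.smul_def, map_mul]
    simp only [Equiv.coe_addRight]
    ring
  rw [h1, Matrix.det_mul, Matrix.det_mul, Matrix.det_submatrix_equiv_self, Matrix.det_diagonal,
    Matrix.det_diagonal, mul_right_comm, ← Finset.prod_mul_distrib]
  have : ∀ i : ZMod p, algebraMap k R (pw u i) * algebraMap k R (pw u i)⁻¹ = 1 := by
    intro i
    rw [← map_mul, mul_inv_cancel₀ (pw_ne_zero u i), map_one]
  simp [this]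

/-- the congruence subgroup of `SL_p` attached to an ideal -/
def cg (p : ℕ) [Fact p.Prime] (I : Ideal R) : Subgroup (SpecialLinearGroup (ZMod p) R) :=
  (SpecialLinearGroup.map (n := ZMod p) (Ideal.Quotient.mk I)).ker

lemma one_quot (I : Ideal R) (i j : ZMod p) : (1 : Matrix (ZMod p) (ZMod p) (R ⧸ I)) i j =
      Ideal.Quotient.mk I ((1 : Matrix (ZMod p) (ZMod p) R) i j) := by
  by_cases h : i = j
  · subst h; simp
  · simp [Matrix.one_apply_ne h]

lemma map_val (I : Ideal R) (g : SpecialLinearGroup (ZMod p) R) (i j : ZMod p) :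
    (SpecialLinearGroup.map (n := ZMod p) (Ideal.Quotient.mk I) g).1 i j =
      Ideal.Quotient.mk I (g.1 i j) := rfl

lemma mem_cg (I : Ideal R) (g : SpecialLinearGroup (ZMod p) R) :
    g ∈ cg p I ↔ ∀ i j, g.1 i j - (1 : Matrix (ZMod p) (ZMod p) R) i j ∈ I := by
  unfold cg
  rw [MonoidHom.mem_ker]
  constructor
  · intro h i j
    have h1 := congrFun (congrFun (congrArg Subtype.val h) i) j
    rw [map_val] at h1
    have h2 : (Ideal.Quotient.mk I) (g.1 i j) =
        Ideal.Quotient.mk I ((1 : Matrix (ZMod p) (ZMod p) R) i j) := by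
      rw [h1, ← one_quot]; rfl
    exact (Ideal.Quotient.eq).mp h2
  · intro h
    apply Subtype.ext
    ext i j
    rw [map_val]
    change _ = (1 : Matrix (ZMod p) (ZMod p) (R ⧸ I)) i j
    rw [one_quot]
    exact (Ideal.Quotient.eq).mpr (h i j)

lemma comm_cg (I I' : Ideal R) (g h : SpecialLinearGroup (ZMod p) R) (hg : g ∈ cg p I)
    (hh : h ∈ cg p I') : ⁅g, h⁆ ∈ cg p (I * I') := by
  rw [mem_cg] at hg hh
  have key : SpecialLinearGroup.map (n := ZMod p) (Ideal.Quotient.mk (I * I')) (g * h) =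
      SpecialLinearGroup.map (n := ZMod p) (Ideal.Quotient.mk (I * I')) (h * g) := by
    apply Subtype.ext
    ext i j
    rw [map_val, map_val, Ideal.Quotient.eq]
    have e : (g * h).1 - (h * g).1 = (g.1 - 1) * (h.1 - 1) - (h.1 - 1) * (g.1 - 1) := by
      change (g.1 * h.1) - (h.1 * g.1) = _
      noncomm_ring
    have e2 : (g * h).1 i j - (h * g).1 i j = ((g.1 - 1) * (h.1 - 1)) i j -
        ((h.1 - 1) * (g.1 - 1)) i j := by
      have := congrFun (congrFun e i) j
      simpa [Matrix.sub_apply] using this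
    rw [e2]
    refine Ideal.sub_mem _ ?_ ?_
    · rw [Matrix.mul_apply]
      refine Ideal.sum_mem _ fun l _ => ?_
      exact Ideal.mul_mem_mul (hg i l) (hh l j)
    · rw [Matrix.mul_apply]
      refine Ideal.sum_mem _ fun l _ => ?_
      rw [mul_comm ((h.1 - 1) i l)]
      exact Ideal.mul_mem_mul (hg l j) (hh i l)
  unfold cg
  rw [MonoidHom.mem_ker, map_commutatorElement, commutatorElement_eq_one_iff_mul_comm,
    ← map_mul, ← map_mul]
  exact key

end mat

end Pool.Agent.H60.EC
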