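import Pool.Agent.H60.EC.Cong

set_option autoImplicit false
set_option linter.unusedSectionVars false

/-!
Congruence subgroups: action, regularity, derived length.
-/

namespace Pool.Agent.H60.EC

open Matrix
open scoped commutatorElement

section ideal
variable (k : Type) [Field k] (N : ℕ)

/-- the maximal ideal of the truncated polynomial ring -/
noncomputable def mm : Ideal (TR k (Fin N)) := Ideal.span (Set.range (tau k (Fin N)))

lemma mm_pow_le (n : ℕ) : mm k N ^ n ≤
    Ideal.span {y | ∃ f : Fin n → Fin N, y = ∏ i, tau k (Fin N) (f i)} := by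
  induction n with
  | zero =>
    refine (pow_zero (mm k N)).le.trans ?_
    rw [Ideal.one_eq_top]
    have : (1 : TR k (Fin N)) ∈
        Ideal.span {y | ∃ f : Fin 0 → Fin N, y = ∏ i, tau k (Fin N) (f i)} :=
      Ideal.subset_span ⟨Fin.elim0, by simp⟩
    rw [(Ideal.eq_top_iff_one _).mpr this]
  | succ n ih =>
    refine (pow_succ (mm k N) n).le.trans ?_
    refine (Ideal.mul_mono ih le_rfl).trans ?_
    unfold mm
    rw [Ideal.span_mul_span', Ideal.span_le]
    rintro _ ⟨_, ⟨f, rfl⟩, _, ⟨j, rfl⟩, rfl⟩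
    refine Ideal.subset_span ⟨Fin.snoc f j, ?_⟩
    rw [Fin.prod_univ_castSucc]
    simp

lemma mm_pow : mm k N ^ (N + 1) = ⊥ := by
  rw [eq_bot_iff]
  refine (mm_pow_le k N (N + 1)).trans ?_
  rw [Ideal.span_le]
  rintro _ ⟨f, rfl⟩
  obtain ⟨i, j, hij, hf⟩ := Fintype.exists_ne_map_eq_of_card_lt f (by simp)
  rw [← Finset.mul_prod_erase Finset.univ _ (Finset.mem_univ i),
    ← Finset.mul_prod_erase (Finset.univ.erase i) _ (Finset.mem_erase.mpr
      ⟨hij.symm, Finset.mem_univ j⟩), hf, ← mul_assoc, tau_sq, zero_mul]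
  exact Submodule.zero_mem _

lemma prod_mem_mm (F : Finset (Fin N)) (hF : F.Nonempty) : ∏ j ∈ F, tau k (Fin N) j ∈ mm k N := by
  obtain ⟨j, hj⟩ := hF
  exact Ideal.mem_of_dvd _ (Finset.dvd_prod_of_mem _ hj) (Ideal.subset_span ⟨j, rfl⟩)

end ideal

lemma one_add_pow_two_pow {S : Type} [Ring S] (h2 : (2 : S) = 0) (a : S) (m : ℕ) :
    (1 + a) ^ 2 ^ m = 1 + a ^ 2 ^ m := by
  induction m with
  | zero => simp
  | succ m ih =>
    rw [pow_succ, pow_mul, ih, pow_mul, pow_two, pow_two]
    have : a ^ 2 ^ m + a ^ 2 ^ m = 0 := by rw [← two_mul, h2, zero_mul]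
    calc (1 + a ^ 2 ^ m) * (1 + a ^ 2 ^ m)
        = 1 + (a ^ 2 ^ m + a ^ 2 ^ m) + a ^ 2 ^ m * a ^ 2 ^ m := by noncomm_ring
      _ = _ := by rw [this, add_zero]

section act
variable {k R : Type} [Field k] [CommRing R] [Algebra k R] {p : ℕ} [Fact p.Prime]

/-- the action on `SL_p` -/
def slAct (s : ZMod p) (u : ↥(rootsOfUnity p k)) (g : SpecialLinearGroup (ZMod p) R) :
    SpecialLinearGroup (ZMod p) R := ⟨actM s u g.1, (det_actM s u g.1).trans g.2⟩

lemma slAct_val (s : ZMod p) (u : ↥(rootsOfUnity p k)) (g : SpecialLinearGroup (ZMod p) R) :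
    (slAct s u g).1 = actM s u g.1 := rfl

lemma slAct_mem (I : Ideal R) (s : ZMod p) (u : ↥(rootsOfUnity p k))
    (g : SpecialLinearGroup (ZMod p) R) (hg : g ∈ cg p I) : slAct s u g ∈ cg p I := by
  rw [mem_cg] at hg ⊢
  intro i j
  rw [slAct_val, actM_apply]
  have : pw u (i - j) • g.1 (i + s) (j + s) - (1 : Matrix (ZMod p) (ZMod p) R) i j =
      algebraMap k R (pw u (i - j)) *
        (g.1 (i + s) (j + s) - (1 : Matrix (ZMod p) (ZMod p) R) (i + s) (j + s)) := by
    rw [mul_sub, ← Algebra.smul_def, ← Algebra.smul_def, one_shift, pw_one_apply]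
  rw [this]
  exact Ideal.mul_mem_left _ _ (hg _ _)

/-- the group `C_p × C_p` -/
abbrev WW (p : ℕ) (k : Type) [Field k] : Type := Multiplicative (ZMod p) × ↥(rootsOfUnity p k)

instance actK (I : Ideal R) : MulDistribMulAction (WW p k) ↥(cg p I) where
  smul w g := ⟨slAct (Multiplicative.toAdd w.1) w.2 g.1, slAct_mem I _ _ _ g.2⟩
  one_smul g := by
    apply Subtype.ext
    apply Subtype.ext
    exact actM_zero_one g.1.1
  mul_smul w w' g := by
    apply Subtype.ext
    apply Subtype.ext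
    exact (actM_actM _ _ _ _ g.1.1).symm
  smul_mul w g h := by
    apply Subtype.ext
    apply Subtype.ext
    exact actM_mul _ _ g.1.1 h.1.1
  smul_one w := by
    apply Subtype.ext
    apply Subtype.ext
    exact actM_one _ _

lemma smulK_apply (I : Ideal R) (w : WW p k) (g : ↥(cg p I)) (i j : ZMod p) :
    (w • g).1.1 i j = pw w.2 (i - j) •
      g.1.1 (i + Multiplicative.toAdd w.1) (j + Multiplicative.toAdd w.1) := rfl

lemma regK [CharP k 2] (hp2 : p ≠ 2) (w : kˣ) (hw : IsPrimitiveRoot w p) (I : Ideal R) (n : ℕ)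
    (hI : I ^ n = ⊥) (g : ↥(cg p I)) (h : ∀ v : WW p k, v • g = g) : g = 1 := by
  have hp : p.Prime := Fact.out
  have hmem : w ∈ rootsOfUnity p k := (mem_rootsOfUnity p w).mpr hw.pow_eq_one
  have hpw : ∀ a : ZMod p, a ≠ 0 → pw (⟨w, hmem⟩ : ↥(rootsOfUnity p k)) a ≠ 1 := by
    intro a ha h1
    have h2 : w ^ a.val = 1 := by
      apply Units.ext
      rw [Units.val_pow_eq_pow_val, Units.val_one]
      exact h1
    have h3 := (hw.pow_eq_one_iff_dvd _).mp h2
    have h4 := ZMod.val_lt a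
    have h5 : a.val = 0 := Nat.eq_zero_of_dvd_of_lt h3 h4
    exact ha ((ZMod.val_eq_zero a).mp h5)
  have hoff : ∀ i j : ZMod p, i ≠ j → g.1.1 i j = 0 := by
    intro i j hij
    have h1 := h (1, ⟨w, hmem⟩)
    have h2 := congrFun (congrFun (congrArg (fun x : ↥(cg p I) => x.1.1) h1) i) j
    simp only [smulK_apply, toAdd_one, add_zero] at h2
    have h3 : (pw (⟨w, hmem⟩ : ↥(rootsOfUnity p k)) (i - j) - 1) • g.1.1 i j = 0 := by
      rw [sub_smul, h2, one_smul, sub_self]
    exact (smul_eq_zero.mp h3).resolve_left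
      (sub_ne_zero.mpr (hpw _ (sub_ne_zero.mpr hij)))
  have hdiag : ∀ s : ZMod p, g.1.1 s s = g.1.1 0 0 := by
    intro s
    have h1 := h (Multiplicative.ofAdd s, 1)
    have h2 := congrFun (congrFun (congrArg (fun x : ↥(cg p I) => x.1.1) h1) 0) 0
    simp only [smulK_apply, toAdd_ofAdd, zero_add, sub_self, pw_zero, one_smul] at h2
    exact h2
  set lam : R := g.1.1 0 0 with hlam
  have hg : g.1.1 = Matrix.diagonal (fun _ => lam) := by
    ext i j
    by_cases hij : i = j
    · subst hij; rw [Matrix.diagonal_apply_eq, hdiag]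
    · rw [Matrix.diagonal_apply_ne _ hij, hoff i j hij]
  have hdet : lam ^ p = 1 := by
    have h1 := g.1.2
    rw [hg, Matrix.det_diagonal, Finset.prod_const, Finset.card_univ, ZMod.card] at h1
    exact h1
  have hmemI : lam - 1 ∈ I := by
    have h1 := (mem_cg I g.1).mp g.2 0 0
    rw [Matrix.one_apply_eq] at h1
    exact h1
  have hpow : lam ^ 2 ^ n = 1 := by
    have h1 : (lam - 1) ^ n = 0 := by
      have := Ideal.pow_mem_pow hmemI n
      rw [hI] at this
      simpa using this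
    have h2 : (lam - 1) ^ 2 ^ n = 0 := pow_eq_zero_of_le (Nat.lt_two_pow_self).le h1
    have h3 := one_add_pow_two_pow (two_R k R) (lam - 1) n
    rw [h2, add_zero] at h3
    have h4 : 1 + (lam - 1) = lam := by ring
    rwa [h4] at h3
  have hlam1 : lam = 1 := by
    have h1 := orderOf_dvd_of_pow_eq_one hdet
    have h2 := orderOf_dvd_of_pow_eq_one hpow
    have hcop : Nat.Coprime p (2 ^ n) := by
      apply Nat.Coprime.pow_right
      rw [Nat.coprime_primes hp Nat.prime_two]
      exact hp2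
    have h3 := Nat.dvd_gcd h1 h2
    rw [hcop.gcd_eq_one, Nat.dvd_one] at h3
    exact orderOf_eq_one_iff.mp h3
  apply Subtype.ext
  apply Subtype.ext
  change g.1.1 = 1
  rw [hg, hlam1]
  exact Matrix.diagonal_one

lemma entry_pow (I : Ideal R) (a : Matrix (ZMod p) (ZMod p) R) (ha : ∀ i j, a i j ∈ I) (n : ℕ) :
    ∀ i j, (a ^ n) i j ∈ I ^ n := by
  induction n with
  | zero => intro i j; rw [pow_zero I, Ideal.one_eq_top]; trivial
  | succ n ih =>
    intro i j
    have h1 : a ^ (n + 1) = a ^ n * a := pow_succ a n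
    rw [h1, Matrix.mul_apply, pow_succ]
    exact Ideal.sum_mem _ fun l _ => Ideal.mul_mem_mul (ih i l) (ha l j)

lemma two_mat [CharP k 2] : (2 : Matrix (ZMod p) (ZMod p) R) = 0 := by
  have h := two_R k R
  have h1 : (2 : Matrix (ZMod p) (ZMod p) R) = (2 : R) • 1 := by
    rw [two_smul, one_add_one_eq_two]
  rw [h1, h, zero_smul]

lemma isPGroupK [CharP k 2] (I : Ideal R) (n : ℕ) (hI : I ^ n = ⊥) : IsPGroup 2 ↥(cg p I) := by
  intro g
  refine ⟨n, ?_⟩
  apply Subtype.ext
  apply Subtype.ext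
  change g.1.1 ^ 2 ^ n = 1
  have h1 : g.1.1 = 1 + (g.1.1 - 1) := by noncomm_ring
  have h2 := (mem_cg I g.1).mp g.2
  have h3 : (g.1.1 - 1) ^ n = 0 := by
    ext i j
    have := entry_pow I (g.1.1 - 1) h2 n i j
    rw [hI] at this
    simpa using this
  rw [h1, one_add_pow_two_pow (two_mat (k := k)), pow_eq_zero_of_le (Nat.lt_two_pow_self).le h3,
    add_zero]

/-- elementary matrices -/
def tv {a b : ZMod p} (h : a ≠ b) (s : R) : SpecialLinearGroup (ZMod p) R :=
  ⟨Matrix.transvection a b s, Matrix.det_transvection_of_ne _ _ h s⟩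

lemma tv_mem (I : Ideal R) {a b : ZMod p} (h : a ≠ b) (s : R) (hs : s ∈ I) : tv h s ∈ cg p I := by
  rw [mem_cg]
  intro i j
  change (1 + Matrix.single a b s) i j - (1 : Matrix (ZMod p) (ZMod p) R) i j ∈ I
  rw [Matrix.add_apply, add_sub_cancel_left]
  by_cases hh : a = i ∧ b = j
  · obtain ⟨rfl, rfl⟩ := hh
    rw [Matrix.single_apply_same]
    exact hs
  · rw [Matrix.single_apply_of_ne]
    · exact I.zero_mem
    · exact hh

lemma tv_comm {a b c : ZMod p} (hab : a ≠ b) (hac : a ≠ c) (hcb : c ≠ b) (s u : R) :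
    ⁅tv hac s, tv hcb u⁆ = tv hab (s * u) := by
  have key : tv hac s * tv hcb u = tv hab (s * u) * tv hcb u * tv hac s := by
    apply Subtype.ext
    change (1 + Matrix.single a c s) * (1 + Matrix.single c b u) =
      (1 + Matrix.single a b (s * u)) * (1 + Matrix.single c b u) * (1 + Matrix.single a c s)
    have e1 : Matrix.single a c s * Matrix.single c b u = Matrix.single a b (s * u) := by simp
    have e2 : Matrix.single c b u * Matrix.single a c s = 0 := by
      rw [Matrix.single_mul_single_of_ne]; exact hab.symm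
    have e3 : Matrix.single a b (s * u) * Matrix.single c b u = 0 := by
      rw [Matrix.single_mul_single_of_ne]; exact hcb.symm
    have e4 : Matrix.single a b (s * u) * Matrix.single a c s = 0 := by
      rw [Matrix.single_mul_single_of_ne]; exact hab.symm
    generalize Matrix.single a c s = X at *
    generalize Matrix.single c b u = Y at *
    generalize Matrix.single a b (s * u) = Z at *
    have : (1 + Z) * (1 + Y) * (1 + X) = 1 + X + Y + Z + Z * Y + Z * X + Y * X + Z * (Y * X) := by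
      noncomm_ring
    rw [this, e2, e3, e4, mul_zero, ← e1]
    noncomm_ring
  rw [commutatorElement_def, key]
  group

end act

section derived
variable {k R : Type} [Field k] [CommRing R] [Algebra k R] {p : ℕ} [Fact p.Prime]

lemma derived_le (I : Ideal R) (i : ℕ) (g : ↥(cg p I)) (hg : g ∈ derivedSeries ↥(cg p I) i) :
    g.1 ∈ cg p (I ^ 2 ^ i) := by
  revert g
  induction i with
  | zero => intro g _; rw [pow_zero, pow_one]; exact g.2
  | succ i ih =>
    intro g hg
    have : derivedSeries ↥(cg p I) (i + 1) ≤ (cg p (I ^ 2 ^ (i + 1))).comap (cg p I).subtype := by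
      rw [derivedSeries_succ, Subgroup.commutator_le]
      intro x hx y hy
      rw [Subgroup.mem_comap, map_commutatorElement, pow_succ, mul_two, pow_add]
      exact comm_cg _ _ _ _ (ih x hx) (ih y hy)
    exact this hg

lemma derived_bot (I : Ideal R) (n i : ℕ) (hI : I ^ n = ⊥) (hn : n ≤ 2 ^ i) :
    derivedSeries ↥(cg p I) i = ⊥ := by
  rw [eq_bot_iff]
  intro g hg
  have h1 := derived_le I i g hg
  have h2 : I ^ 2 ^ i = ⊥ := by
    rw [eq_bot_iff, ← hI]
    exact Ideal.pow_le_pow_right hn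
  rw [h2, mem_cg] at h1
  rw [Subgroup.mem_bot]
  apply Subtype.ext
  apply Subtype.ext
  ext i j
  have := h1 i j
  rw [Ideal.mem_bot, sub_eq_zero] at this
  exact this

lemma exists_third (hp2 : p ≠ 2) (a b : ZMod p) : ∃ c : ZMod p, a ≠ c ∧ c ≠ b := by
  have hp : p.Prime := Fact.out
  have h3 : 3 ≤ p := by
    have := hp.two_le
    omega
  by_contra hcon
  push Not at hcon
  have hsub : (Finset.univ : Finset (ZMod p)) ⊆ {a, b} := by
    intro c _
    rw [Finset.mem_insert, Finset.mem_singleton]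
    by_cases hc : a = c
    · exact Or.inl hc.symm
    · exact Or.inr (hcon c hc)
  have h1 := Finset.card_le_card hsub
  have h2 : ({a, b} : Finset (ZMod p)).card ≤ 2 := Finset.card_le_two
  rw [Finset.card_univ, ZMod.card] at h1
  omega

lemma derived_mem (hp2 : p ≠ 2) (N i : ℕ) (F : Finset (Fin N)) (hF : F.card = 2 ^ i)
    (s : TR k (Fin N)) (hs : s = ∏ j ∈ F, tau k (Fin N) j) (hsm : s ∈ mm k N)
    {a b : ZMod p} (hab : a ≠ b) :
    (⟨tv hab s, tv_mem _ hab s hsm⟩ : ↥(cg p (mm k N))) ∈ derivedSeries ↥(cg p (mm k N)) i := by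
  induction i generalizing F s a b with
  | zero => trivial
  | succ i ih =>
    obtain ⟨F1, hF1, hc1⟩ := Finset.exists_subset_card_eq (s := F) (n := 2 ^ i) (by
      rw [hF, pow_succ]; omega)
    have hc2 : (F \ F1).card = 2 ^ i := by
      rw [Finset.card_sdiff_of_subset hF1, hF, hc1, pow_succ]; omega
    obtain ⟨c, hac, hcb⟩ := exists_third hp2 a b
    have hm1 : ∏ j ∈ F1, tau k (Fin N) j ∈ mm k N := prod_mem_mm k N F1 (by
      rw [← Finset.card_pos, hc1]; positivity)
    have hm2 : ∏ j ∈ F \ F1, tau k (Fin N) j ∈ mm k N := prod_mem_mm k N (F \ F1) (by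
      rw [← Finset.card_pos, hc2]; positivity)
    have i1 := ih F1 hc1 _ rfl hm1 hac
    have i2 := ih (F \ F1) hc2 _ rfl hm2 hcb
    have hprod : s = (∏ j ∈ F1, tau k (Fin N) j) * ∏ j ∈ F \ F1, tau k (Fin N) j := by
      rw [hs, mul_comm, Finset.prod_sdiff hF1]
    have heq : (⟨tv hab s, tv_mem _ hab s hsm⟩ : ↥(cg p (mm k N))) =
        ⁅(⟨tv hac _, tv_mem _ hac _ hm1⟩ : ↥(cg p (mm k N))), ⟨tv hcb _, tv_mem _ hcb _ hm2⟩⁆ := by
      apply Subtype.ext
      change tv hab s = ⁅tv hac (∏ j ∈ F1, tau k (Fin N) j), tv hcb (∏ j ∈ F \ F1, tau k (Fin N) j)⁆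
      rw [tv_comm hab hac hcb, hprod]
    rw [heq, derivedSeries_succ]
    exact Subgroup.commutator_mem_commutator i1 i2

lemma derived_not_bot (hp2 : p ≠ 2) (i : ℕ) :
    derivedSeries ↥(cg p (mm k (2 ^ i))) i ≠ ⊥ := by
  intro hbot
  have h01 : (0 : ZMod p) ≠ 1 := by
    have : Nontrivial (ZMod p) := by
      have : Fact (1 < p) := ⟨(Fact.out : p.Prime).one_lt⟩
      infer_instance
    exact zero_ne_one
  have hne : (Finset.univ : Finset (Fin (2 ^ i))).Nonempty := by
    rw [← Finset.card_pos, Finset.card_univ, Fintype.card_fin]; positivity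
  have h1 := derived_mem (k := k) hp2 (2 ^ i) i Finset.univ (by simp) _ rfl
    (prod_mem_mm k _ _ hne) h01
  rw [hbot, Subgroup.mem_bot] at h1
  have h2 := congrFun (congrFun (congrArg
    (fun x : ↥(cg p (mm k (2 ^ i))) => x.1.1) h1) 0) 1
  change (1 + Matrix.single (0 : ZMod p) 1 (∏ j, tau k (Fin (2 ^ i)) j) :
    Matrix (ZMod p) (ZMod p) (TR k (Fin (2 ^ i)))) 0 1 =
    (1 : Matrix (ZMod p) (ZMod p) (TR k (Fin (2 ^ i)))) 0 1 at h2
  rw [Matrix.add_apply, Matrix.one_apply_ne h01, zero_add, Matrix.single_apply_same] at h2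
  exact prod_tau_ne_zero (k := k) (ι := Fin (2 ^ i)) h2

end derived

end Pool.Agent.H60.EC
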