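import Pool.Agent.H60.EC.Sys

set_option autoImplicit false
set_option linter.unusedSectionVars false

/-!
The group `G = A ⋊ Q` with its torus of automorphisms.
-/

namespace Pool.Agent.H60.EC

open scoped commutatorElement
open Sys

variable {k A ι J : Type} [Field k] [CharP k 2] [CommRing A] [Algebra k A] [Fintype ι] [Fintype J]

/-- the underlying set of the group -/
@[ext] structure GG (S : Sys k A ι J) where
  m : A
  a : J → ι → k
  b : J → ι → k
  C : ι → ι → k

variable {S : Sys k A ι J}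
namespace GG

instance : Mul (GG S) :=
  ⟨fun g h => ⟨g.m + S.rho g.a g.b g.C h.m, g.a + h.a, g.b + h.b,
    fun i i' => g.C i i' + h.C i i' + ot g.a h.b i i'⟩⟩

instance : One (GG S) := ⟨⟨0, 0, 0, 0⟩⟩

instance : Inv (GG S) :=
  ⟨fun g => ⟨S.rho g.a g.b (fun i i' => g.C i i' + ot g.a g.b i i') g.m, g.a, g.b,
    fun i i' => g.C i i' + ot g.a g.b i i'⟩⟩

@[simp] lemma mul_m (g h : GG S) : (g * h).m = g.m + S.rho g.a g.b g.C h.m := rfl
@[simp] lemma mul_a (g h : GG S) : (g * h).a = g.a + h.a := rfl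
@[simp] lemma mul_b (g h : GG S) : (g * h).b = g.b + h.b := rfl
@[simp] lemma mul_C (g h : GG S) : (g * h).C =
    fun i i' => g.C i i' + h.C i i' + ot g.a h.b i i' := rfl
@[simp] lemma one_m : (1 : GG S).m = 0 := rfl
@[simp] lemma one_a : (1 : GG S).a = 0 := rfl
@[simp] lemma one_b : (1 : GG S).b = 0 := rfl
@[simp] lemma one_C : (1 : GG S).C = 0 := rfl
@[simp] lemma inv_m (g : GG S) : (g⁻¹).m =
  S.rho g.a g.b (fun i i' => g.C i i' + ot g.a g.b i i') g.m := rfl
@[simp] lemma inv_a (g : GG S) : (g⁻¹).a = g.a := rfl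
@[simp] lemma inv_b (g : GG S) : (g⁻¹).b = g.b := rfl
@[simp] lemma inv_C (g : GG S) : (g⁻¹).C = fun i i' => g.C i i' + ot g.a g.b i i' := rfl

lemma ot_add_left (a a' b : J → ι → k) (i i' : ι) :
    ot (a + a') b i i' = ot a b i i' + ot a' b i i' := by
  simp [ot, add_mul, Finset.sum_add_distrib]

lemma ot_add_right (a b b' : J → ι → k) (i i' : ι) :
    ot a (b + b') i i' = ot a b i i' + ot a b' i i' := by
  simp [ot, mul_add, Finset.sum_add_distrib]

@[simp] lemma ot_zero_left (b : J → ι → k) (i i' : ι) : ot (0 : J → ι → k) b i i' = 0 := by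
  simp [ot]

@[simp] lemma ot_zero_right (a : J → ι → k) (i i' : ι) : ot a (0 : J → ι → k) i i' = 0 := by
  simp [ot]

lemma vv_add (a : J → ι → k) : a + a = 0 := by
  funext j i
  exact CharTwo.add_self_eq_zero _

instance : Group (GG S) :=
  Group.ofLeftAxioms (by
    intro x y z
    apply GG.ext
    · rw [mul_m, mul_m, mul_m, mul_m, S.rho_add, S.rho_rho, mul_a, mul_b, mul_C]
      ring
    · simp [add_assoc]
    · simp [add_assoc]
    · funext i i'
      simp only [mul_C, mul_a, mul_b, ot_add_left, ot_add_right]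
      ring) (by
    intro x
    apply GG.ext
    · rw [mul_m, one_m, one_a, one_b, one_C, S.rho_zero, zero_add]
    · simp
    · simp
    · funext i i'; simp) (by
    intro x
    apply GG.ext
    · rw [mul_m, inv_m, inv_C, inv_b, inv_a]
      exact add_self_R k _
    · rw [mul_a, inv_a]; exact vv_add _
    · rw [mul_b, inv_b]; exact vv_add _
    · funext i i'
      rw [mul_C, inv_C, inv_a]
      simp only [one_C, Pi.zero_apply]
      have := CharTwo.add_self_eq_zero (x.C i i' + ot x.a x.b i i')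
      linear_combination this)

/-- the character by which the torus acts on the module -/
def om (u : kˣ × (J → kˣ)) : k := ((∏ j, u.2 j : kˣ) : k)

/-- the torus action -/
instance : MulDistribMulAction (kˣ × (J → kˣ)) (GG S) where
  smul u g := ⟨om u • S.sc u.1 (fun j => (u.2 j : k)) g.m,
    fun j => ((u.1 * (u.2 j)⁻¹ : kˣ) : k) • g.a j,
    fun j => ((u.1 * u.2 j : kˣ) : k) • g.b j, fun i i' => (u.1 : k) ^ 2 * g.C i i'⟩
  one_smul g := by
    apply GG.ext
    · change om (1 : kˣ × (J → kˣ)) • S.sc ((1 : kˣ × (J → kˣ)).1 : k)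
        (fun j => ((1 : kˣ × (J → kˣ)).2 j : k)) g.m = g.m
      have h1 : om (1 : kˣ × (J → kˣ)) = (1 : k) := by simp [om]
      have h2 : (fun j => ((1 : kˣ × (J → kˣ)).2 j : k)) = (1 : J → k) := by funext j; simp
      have h3 : (((1 : kˣ × (J → kˣ)).1 : kˣ) : k) = 1 := by simp
      rw [h1, h2, h3, S.sc_one, one_smul]
      rfl
    · funext j
      change (((1 : kˣ × (J → kˣ)).1 * ((1 : kˣ × (J → kˣ)).2 j)⁻¹ : kˣ) : k) • g.a j = g.a j
      simp
    · funext j
      change (((1 : kˣ × (J → kˣ)).1 * ((1 : kˣ × (J → kˣ)).2 j) : kˣ) : k) • g.b j = g.b j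
      simp
    · funext i i'
      change (((1 : kˣ × (J → kˣ)).1 : kˣ) : k) ^ 2 * g.C i i' = g.C i i'
      simp
  mul_smul u v g := by
    apply GG.ext
    · change om (u * v) • S.sc (((u * v).1 : kˣ) : k) (fun j => ((u * v).2 j : k)) g.m =
        om u • S.sc u.1 (fun j => (u.2 j : k)) (om v • S.sc v.1 (fun j => (v.2 j : k)) g.m)
      have h1 : om (u * v) = om u * om v := by simp [om, Finset.prod_mul_distrib]
      have h2 : (fun j => (((u * v).2 j : kˣ) : k)) =
          (fun j => (u.2 j : k)) * (fun j => (v.2 j : k)) := by funext j; simp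
      have h3 : (((u * v).1 : kˣ) : k) = (u.1 : k) * (v.1 : k) := by simp
      rw [h1, h2, h3, S.sc_mul, map_smul, smul_smul]
      rfl
    · funext j
      change (((u * v).1 * ((u * v).2 j)⁻¹ : kˣ) : k) • g.a j =
        ((u.1 * (u.2 j)⁻¹ : kˣ) : k) • (((v.1 * (v.2 j)⁻¹ : kˣ) : k) • g.a j)
      rw [smul_smul, ← Units.val_mul]
      congr 2
      simp only [Prod.fst_mul, Prod.snd_mul, Pi.mul_apply, mul_inv]
      rw [mul_mul_mul_comm]
    · funext j
      change (((u * v).1 * ((u * v).2 j) : kˣ) : k) • g.b j =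
        ((u.1 * (u.2 j) : kˣ) : k) • (((v.1 * (v.2 j) : kˣ) : k) • g.b j)
      rw [smul_smul, ← Units.val_mul]
      congr 2
      simp only [Prod.fst_mul, Prod.snd_mul, Pi.mul_apply]
      rw [mul_mul_mul_comm]
    · funext i i'
      change (((u * v).1 : kˣ) : k) ^ 2 * g.C i i' = (u.1 : k) ^ 2 * ((v.1 : k) ^ 2 * g.C i i')
      simp
      ring
  smul_mul u g h := by
    apply GG.ext
    · change om u • S.sc u.1 (fun j => (u.2 j : k)) (g.m + S.rho g.a g.b g.C h.m) =
        om u • S.sc u.1 (fun j => (u.2 j : k)) g.m +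
          S.rho (fun j => ((u.1 * (u.2 j)⁻¹ : kˣ) : k) • g.a j)
            (fun j => ((u.1 * u.2 j : kˣ) : k) • g.b j) (fun i i' => (u.1 : k) ^ 2 * g.C i i')
            (om u • S.sc u.1 (fun j => (u.2 j : k)) h.m)
      have key := DFunLike.congr_fun (S.sc_sh (u.1 : k) (fun j => (u.2 j : k)) g.a
        (fun j => ((u.1 * (u.2 j)⁻¹ : kˣ) : k) • g.a j) (by
          intro j
          simp only [smul_smul, Units.val_mul]
          congr 1
          have : (u.2 j : k) * (((u.2 j)⁻¹ : kˣ) : k) = 1 := by simp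
          linear_combination (u.1 : k) * this)) h.m
      simp only [AlgHom.comp_apply] at key
      unfold rho
      rw [map_add, map_mul, map_mul, S.sc_phi, S.sc_e, key, smul_add, map_smul]
      simp only [Units.val_mul, Algebra.smul_def]
      ring
    · funext j
      change ((u.1 * (u.2 j)⁻¹ : kˣ) : k) • (g.a j + h.a j) = _ • g.a j + _ • h.a j
      rw [smul_add]
    · funext j
      change ((u.1 * u.2 j : kˣ) : k) • (g.b j + h.b j) = _ • g.b j + _ • h.b j
      rw [smul_add]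
    · funext i i'
      change (u.1 : k) ^ 2 * (g.C i i' + h.C i i' + ot g.a h.b i i') =
        (u.1 : k) ^ 2 * g.C i i' + (u.1 : k) ^ 2 * h.C i i' +
          ot (fun j => ((u.1 * (u.2 j)⁻¹ : kˣ) : k) • g.a j)
            (fun j => ((u.1 * u.2 j : kˣ) : k) • h.b j) i i'
      have : ot (fun j => ((u.1 * (u.2 j)⁻¹ : kˣ) : k) • g.a j)
            (fun j => ((u.1 * u.2 j : kˣ) : k) • h.b j) i i' = (u.1 : k) ^ 2 * ot g.a h.b i i' := by
        simp only [ot_apply, Finset.mul_sum, Pi.smul_apply, smul_eq_mul, Units.val_mul]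
        refine Finset.sum_congr rfl fun j _ => ?_
        have hu : (u.2 j : k) * (((u.2 j)⁻¹ : kˣ) : k) = 1 := by simp
        linear_combination ((u.1 : k) ^ 2 * g.a j i * h.b j i') * hu
      rw [this]
      ring
  smul_one u := by
    apply GG.ext
    · change om u • S.sc u.1 (fun j => (u.2 j : k)) (0 : A) = 0
      simp
    · funext j
      change ((u.1 * (u.2 j)⁻¹ : kˣ) : k) • (0 : ι → k) = 0
      simp
    · funext j
      change ((u.1 * (u.2 j) : kˣ) : k) • (0 : ι → k) = 0
      simp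
    · funext i i'
      change (u.1 : k) ^ 2 * (0 : k) = 0
      simp

lemma smul_m (u : kˣ × (J → kˣ)) (g : GG S) :
    (u • g).m = om u • S.sc u.1 (fun j => (u.2 j : k)) g.m := rfl
lemma smul_a (u : kˣ × (J → kˣ)) (g : GG S) :
    (u • g).a = fun j => ((u.1 * (u.2 j)⁻¹ : kˣ) : k) • g.a j := rfl
lemma smul_b (u : kˣ × (J → kˣ)) (g : GG S) :
    (u • g).b = fun j => ((u.1 * u.2 j : kˣ) : k) • g.b j := rfl
lemma smul_C (u : kˣ × (J → kˣ)) (g : GG S) :
    (u • g).C = fun i i' => (u.1 : k) ^ 2 * g.C i i' := rfl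

lemma finite_GG [Finite k] [Finite A] : Finite (GG S) := by
  refine Finite.of_injective (fun g : GG S => (g.m, g.a, g.b, g.C)) ?_
  intro g h hgh
  simp only [Prod.mk.injEq] at hgh
  exact GG.ext hgh.1 hgh.2.1 hgh.2.2.1 hgh.2.2.2

/-- elements of the subgroup `M` -/
def Mm (S : Sys k A ι J) (m : A) : GG S := ⟨m, 0, 0, 0⟩
def X1 (S : Sys k A ι J) (a : J → ι → k) : GG S := ⟨0, a, 0, 0⟩
def X2 (S : Sys k A ι J) (b : J → ι → k) : GG S := ⟨0, 0, b, 0⟩
def Zz (S : Sys k A ι J) (C : ι → ι → k) : GG S := ⟨0, 0, 0, C⟩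

lemma comm_X1_X2 (a b : J → ι → k) : ⁅X1 S a, X2 S b⁆ = Zz S (ot a b) := by
  rw [commutatorElement_def]
  apply GG.ext
  · simp [X1, X2, Zz]
  · simp [X1, X2, Zz, vv_add]
  · simp [X1, X2, Zz, vv_add]
  · funext i i'
    simp [X1, X2, Zz, ot_add_left]
    exact CharTwo.add_self_eq_zero _

lemma ot_single [DecidableEq J] (j : J) (a b : ι → k) :
    ot (Pi.single j a) (Pi.single j b) = fun i i' => a i * b i' := by
  funext i i'
  rw [ot_apply, Finset.sum_eq_single j]
  · simp
  · intro j' _ hj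
    simp [Pi.single_eq_of_ne hj]
  · simp

lemma comm_M_Z (m : A) (a b : ι → k) :
    ⁅Mm S m, Zz S (fun i i' => a i * b i')⁆ = Mm S (S.T a * S.T b * m) := by
  rw [commutatorElement_def]
  apply GG.ext
  · simp [Mm, Zz, S.rho_Z, S.phi_outer]
    have := add_self_R k m
    linear_combination this
  · simp [Mm, Zz]
  · simp [Mm, Zz]
  · funext i i'
    simp [Mm, Zz, CharTwo.add_self_eq_zero]

lemma sq_a (g : GG S) : (g ^ 2).a = 0 := by
  rw [pow_two]; exact vv_add _

lemma sq_b (g : GG S) : (g ^ 2).b = 0 := by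
  rw [pow_two]; exact vv_add _

lemma sq_C (g : GG S) (hb : g.b = 0) : (g ^ 2).C = 0 := by
  rw [pow_two]; funext i i'; simp [hb, CharTwo.add_self_eq_zero]

lemma sq_one (g : GG S) (ha : g.a = 0) (hb : g.b = 0) (hC : g.C = 0) : g ^ 2 = 1 := by
  rw [pow_two]
  apply GG.ext
  · simp [ha, hb, hC]; exact add_self_R k _
  · simp [ha]
  · simp [hb]
  · funext i i'; simp [ha, hC]

lemma isPGroup : IsPGroup 2 (GG S) := by
  intro g
  refine ⟨3, ?_⟩
  have h1 : (g ^ 2 ^ 3) = ((g ^ 2) ^ 2) ^ 2 := by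
    rw [← pow_mul, ← pow_mul]
    norm_num
  rw [h1]
  apply sq_one
  · exact sq_a _
  · exact sq_b _
  · exact sq_C _ (sq_b _)

/-- first term of the series -/
def K1 (S : Sys k A ι J) : Subgroup (GG S) where
  carrier := {g | g.a = 0 ∧ g.b = 0}
  mul_mem' := by
    rintro x y ⟨h1, h2⟩ ⟨h3, h4⟩
    exact ⟨by simp [h1, h3], by simp [h2, h4]⟩
  one_mem' := ⟨rfl, rfl⟩
  inv_mem' := by
    rintro x ⟨h1, h2⟩
    exact ⟨by simp [h1], by simp [h2]⟩

/-- second term of the series -/
def K2 (S : Sys k A ι J) : Subgroup (GG S) where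
  carrier := {g | g.a = 0 ∧ g.b = 0 ∧ g.C = 0}
  mul_mem' := by
    rintro x y ⟨h1, h2, h5⟩ ⟨h3, h4, h6⟩
    refine ⟨by simp [h1, h3], by simp [h2, h4], ?_⟩
    funext i i'
    simp [h1, h5, h6]
  one_mem' := ⟨rfl, rfl, rfl⟩
  inv_mem' := by
    rintro x ⟨h1, h2, h3⟩
    refine ⟨by simp [h1], by simp [h2], ?_⟩
    funext i i'
    simp [h2, h3]

lemma derived_one : derivedSeries (GG S) 1 ≤ K1 S := by
  rw [derivedSeries_succ, derivedSeries_zero, Subgroup.commutator_le]
  intro g _ h _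
  rw [commutatorElement_def]
  constructor
  · simp only [mul_a, inv_a]
    have h1 := vv_add g.a
    have h2 := vv_add h.a
    calc g.a + h.a + g.a + h.a = (g.a + g.a) + (h.a + h.a) := by abel
      _ = 0 := by rw [h1, h2, add_zero]
  · simp only [mul_b, inv_b]
    have h1 := vv_add g.b
    have h2 := vv_add h.b
    calc g.b + h.b + g.b + h.b = (g.b + g.b) + (h.b + h.b) := by abel
      _ = 0 := by rw [h1, h2, add_zero]

lemma derived_two : derivedSeries (GG S) 2 ≤ K2 S := by
  rw [derivedSeries_succ, Subgroup.commutator_le]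
  intro g hg h hh
  obtain ⟨ga, gb⟩ := derived_one hg
  obtain ⟨ha, hb⟩ := derived_one hh
  rw [commutatorElement_def]
  refine ⟨by simp [ga, ha], by simp [gb, hb], ?_⟩
  funext i j
  simp [ga, ha, gb, hb]
  have h1 := CharTwo.add_self_eq_zero (g.C i j)
  have h2 := CharTwo.add_self_eq_zero (h.C i j)
  linear_combination h1 + h2

lemma derived_three : derivedSeries (GG S) 3 = ⊥ := by
  rw [eq_bot_iff, derivedSeries_succ, Subgroup.commutator_le]
  intro g hg h hh
  obtain ⟨ga, gb, gC⟩ := derived_two hg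
  obtain ⟨ha, hb, hC⟩ := derived_two hh
  rw [Subgroup.mem_bot, commutatorElement_def]
  apply GG.ext
  · simp [ga, gb, gC, ha, hb, hC]
    linear_combination add_self_R k g.m + add_self_R k h.m
  · simp [ga, ha]
  · simp [gb, hb]
  · funext i j
    simp [ga, gb, ha, hb, gC, hC]

end GG

end Pool.Agent.H60.EC
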