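import Pool.Agent.H60.EC.Ring

set_option autoImplicit false
set_option linter.unusedSectionVars false

/-!
For a noncyclic group `V` the subgroup `H` lies in the derived subgroup.
-/

namespace Pool.Agent.H60.EC

open scoped commutatorElement

variable {G V : Type} [Group G] [CommGroup V] [MulDistribMulAction V G]

/-- the norm map of `⟨v⟩` with values in the abelianization -/
def nrm (G : Type) [Group G] [MulDistribMulAction V G] (p : ℕ) (v : V) :
    G →* Abelianization G where
  toFun g := ∏ i ∈ Finset.range p, Abelianization.of (v ^ i • g)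
  map_one' := by simp
  map_mul' g h := by simp [smul_mul', Finset.prod_mul_distrib]

lemma nrm_apply (p : ℕ) (v : V) (g : G) :
    nrm G p v g = ∏ i ∈ Finset.range p, Abelianization.of (v ^ i • g) := rfl

lemma nrm_commWith (p : ℕ) (v : V) (hv : v ^ p = 1) (x : G) (hx : x ∈ commWith G V v) :
    nrm G p v x = 1 := by
  have h : commWith G V v ≤ (nrm G p v).ker := by
    unfold commWith
    rw [Subgroup.closure_le]
    rintro _ ⟨g, rfl⟩
    change nrm G p v _ = 1
    rw [nrm_apply]
    have h1 : ∀ i, Abelianization.of (v ^ i • (g⁻¹ * v • g)) =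
        Abelianization.of (v ^ (i + 1) • g) / Abelianization.of (v ^ i • g) := by
      intro i
      rw [smul_mul', smul_inv', smul_smul, ← pow_succ, map_mul, map_inv, div_eq_mul_inv, mul_comm]
    rw [Finset.prod_congr rfl (fun i _ => h1 i),
      Finset.prod_range_div (fun i => Abelianization.of (v ^ i • g)), hv]
    simp
  exact h hx

lemma smul_mem_commWith (u v : V) (x : G) (hx : x ∈ commWith G V v) :
    u • x ∈ commWith G V v := by
  unfold commWith at hx ⊢
  induction hx using Subgroup.closure_induction with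
  | mem x hx =>
    obtain ⟨g, rfl⟩ := hx
    refine Subgroup.subset_closure ⟨u • g, ?_⟩
    rw [smul_mul', smul_inv', smul_smul, smul_smul, mul_comm]
  | one => rw [smul_one]; exact one_mem _
  | mul x y _ _ hx hy => rw [smul_mul']; exact mul_mem hx hy
  | inv x _ hx => rw [smul_inv']; exact inv_mem hx

/-- If an elementary abelian group `V` of order `p ^ n`, `n ≥ 2`, acts on the finite group `G` with
no nontrivial fixed point, then the intersection `H` of the subgroups `[G,v]` lies in the derived
subgroup of `G`. -/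
theorem interH_le_commutator [Finite G] (p n : ℕ) (hp : p.Prime) (hn : 2 ≤ n)
    (hV : Nat.card V = p ^ n) (hVp : ∀ v : V, v ^ p = 1)
    (hfix : ∀ g : G, (∀ v : V, v • g = g) → g = 1) : interH G V ≤ commutator G := by
  have : Fact p.Prime := ⟨hp⟩
  -- the order of `G` is prime to `p`
  have hVg : IsPGroup p V := IsPGroup.of_card hV
  have hcard : ¬ p ∣ Nat.card G := by
    intro hdvd
    have h1 := hVg.card_modEq_card_fixedPoints G
    have h2 : MulAction.fixedPoints V G = {(1 : G)} := by
      ext g
      rw [MulAction.mem_fixedPoints, Set.mem_singleton_iff]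
      exact ⟨hfix g, fun h v => by rw [h, smul_one]⟩
    rw [h2] at h1
    have h3 : Nat.card ({(1 : G)} : Set G) = 1 := by simp
    rw [h3] at h1
    have h4 : Nat.card G ≡ 0 [MOD p] := (Nat.modEq_zero_iff_dvd).mpr hdvd
    have h5 := h4.symm.trans h1
    have h6 : p ∣ 1 := (Nat.modEq_zero_iff_dvd).mp h5.symm
    exact hp.one_lt.ne' (Nat.dvd_one.mp h6)
  -- two independent elements of `V`
  have hVfin : Finite V := Nat.finite_of_card_ne_zero (by rw [hV]; exact pow_ne_zero _ hp.ne_zero)
  have hVlt : 1 < Nat.card V := by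
    rw [hV]; exact Nat.one_lt_pow (by omega) hp.one_lt
  have hVnt : Nontrivial V := Finite.one_lt_card_iff_nontrivial.mp hVlt
  obtain ⟨b, hb⟩ := exists_ne (1 : V)
  have hob : orderOf b = p := orderOf_eq_prime (hVp b) hb
  obtain ⟨a, ha⟩ : ∃ a : V, a ∉ Subgroup.zpowers b := by
    by_contra hcon
    push Not at hcon
    have h1 : Subgroup.zpowers b = ⊤ := by
      rw [eq_top_iff]; intro a _; exact hcon a
    have h2 : Nat.card (Subgroup.zpowers b) = p := by rw [Nat.card_zpowers, hob]
    rw [h1, Subgroup.card_top, hV] at h2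
    have h3 : p ^ 1 < p ^ n := Nat.pow_lt_pow_right hp.one_lt (by omega)
    rw [pow_one] at h3
    omega
  intro x hx
  have hx' : ∀ v : V, v ≠ 1 → x ∈ commWith G V v := by
    intro v hv
    unfold interH at hx
    simp only [Subgroup.mem_iInf] at hx
    exact hx v hv
  have hN : ∀ v : V, v ≠ 1 → ∀ u : V,
      ∏ i ∈ Finset.range p, Abelianization.of ((v ^ i * u) • x) = 1 := by
    intro v hv u
    have h1 := nrm_commWith p v (hVp v) (u • x) (smul_mem_commWith u v x (hx' v hv))
    rw [nrm_apply] at h1
    simpa [smul_smul] using h1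
  -- the double product
  have h1 : ∏ i ∈ Finset.range p, ∏ j ∈ Finset.range p,
      Abelianization.of (((a * b ^ i) ^ j * 1) • x) = 1 := by
    apply Finset.prod_eq_one
    intro i _
    apply hN
    intro h
    apply ha
    have : a = (b ^ i)⁻¹ := eq_inv_of_mul_eq_one_left h
    rw [this]
    exact inv_mem (pow_mem (Subgroup.mem_zpowers b) i)
  rw [Finset.prod_comm] at h1
  have hpp : p = (p - 1) + 1 := (Nat.succ_pred_eq_of_pos hp.pos).symm
  have h2 : ∀ j ∈ Finset.range p, j ≠ 0 → ∏ i ∈ Finset.range p,
      Abelianization.of (((a * b ^ i) ^ j * 1) • x) = 1 := by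
    intro j hj hj0
    have hbj : b ^ j ≠ 1 := by
      intro h
      have := orderOf_dvd_of_pow_eq_one h
      rw [hob] at this
      exact hj0 (Nat.eq_zero_of_dvd_of_lt this (Finset.mem_range.mp hj))
    have h3 := hN (b ^ j) hbj (a ^ j)
    rw [← h3]
    refine Finset.prod_congr rfl fun i _ => ?_
    congr 2
    rw [mul_one, mul_pow, mul_comm, ← pow_mul, ← pow_mul, mul_comm i j]
  have h4 : (Abelianization.of x) ^ p = 1 := by
    rw [← Finset.mul_prod_erase _ _ (Finset.mem_range.mpr hp.pos),
      Finset.prod_eq_one (s := (Finset.range p).erase 0) (fun j hj =>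
        h2 j (Finset.mem_of_mem_erase hj) (Finset.ne_of_mem_erase hj)), mul_one] at h1
    simpa using h1
  have h5 : Abelianization.of x = 1 := by
    have e1 := orderOf_dvd_of_pow_eq_one h4
    have e2 : orderOf (Abelianization.of x) ∣ Nat.card G :=
      (orderOf_map_dvd Abelianization.of x).trans (orderOf_dvd_natCard x)
    have e3 : Nat.Coprime p (Nat.card G) := (Nat.Prime.coprime_iff_not_dvd hp).mpr hcard
    have e4 := Nat.dvd_gcd e1 e2
    rw [e3.gcd_eq_one, Nat.dvd_one] at e4
    exact orderOf_eq_one_iff.mp e4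
  have h6 : x ∈ (Abelianization.of : G →* Abelianization G).ker := h5
  rwa [Abelianization.ker_of] at h6

/-- For `n ≥ 2` the subgroup `H` of a metabelian group is abelian. -/
theorem interH_abelian [Finite G] (p n : ℕ) (hp : p.Prime) (hn : 2 ≤ n)
    (hV : Nat.card V = p ^ n) (hVp : ∀ v : V, v ^ p = 1)
    (hfix : ∀ g : G, (∀ v : V, v • g = g) → g = 1) (hd : derivedSeries G 2 = ⊥) :
    ∀ x ∈ interH G V, ∀ y ∈ interH G V, x * y = y * x := by
  intro x hx y hy
  have h := interH_le_commutator (G := G) (V := V) p n hp hn hV hVp hfix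
  have h1 : derivedSeries G 1 = commutator G := by
    rw [derivedSeries_one]
  have h2 : ⁅x, y⁆ ∈ derivedSeries G 2 := by
    rw [derivedSeries_succ, h1]
    exact Subgroup.commutator_mem_commutator (h hx) (h hy)
  rw [hd, Subgroup.mem_bot] at h2
  exact commutatorElement_eq_one_iff_mul_comm.mp h2

end Pool.Agent.H60.EC
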