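import Mathlib

set_option autoImplicit false
set_option linter.unusedSectionVars false

/-!
Truncated polynomial rings `k[x_i]/(x_i^2)` and the subgroups `[G,v]`, `H` (adapted from the
library module `ClassUnbounded` of the problem MP_e56c9f_al).
-/

namespace Pool.Agent.H60.EC

/-- For `v : V` acting on the group `G`, the subgroup `[G,v]` generated by all `g⁻¹ g^v`. -/
def commWith (G V : Type) [Group G] [Group V] [MulDistribMulAction V G] (v : V) : Subgroup G :=
  Subgroup.closure {x : G | ∃ g : G, x = g⁻¹ * (v • g)}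

/-- The subgroup `H`, the intersection of all `[G,v]` with `v ≠ 1`. -/
def interH (G V : Type) [Group G] [Group V] [MulDistribMulAction V G] : Subgroup G :=
  ⨅ v : V, ⨅ _ : v ≠ 1, commWith G V v

lemma commWith_normal (G V : Type) [Group G] [Group V] [MulDistribMulAction V G] (v : V) :
    (commWith G V v).Normal := by
  refine ⟨fun n hn h => ?_⟩
  induction hn using Subgroup.closure_induction with
  | mem x hx =>
    obtain ⟨g, rfl⟩ := hx
    have h1 : (g * h⁻¹)⁻¹ * (v • (g * h⁻¹)) ∈ commWith G V v := Subgroup.subset_closure ⟨_, rfl⟩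
    have h2 : (h⁻¹)⁻¹ * (v • h⁻¹) ∈ commWith G V v := Subgroup.subset_closure ⟨_, rfl⟩
    have h3 := mul_mem h1 (inv_mem h2)
    convert h3 using 1
    rw [smul_mul']
    group
  | one => simp
  | mul x y _ _ hx hy =>
    have := mul_mem hx hy
    convert this using 1
    group
  | inv x _ hx =>
    have := inv_mem hx
    convert this using 1
    group

lemma interH_normal (G V : Type) [Group G] [Group V] [MulDistribMulAction V G] :
    (interH G V).Normal := by
  unfold interH
  refine ⟨fun n hn h => ?_⟩
  simp only [Subgroup.mem_iInf] at hn ⊢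
  intro v hv
  exact (commWith_normal G V v).conj_mem n (hn v hv) h

open MvPolynomial
open scoped commutatorElement

section ring
variable (k : Type) [Field k] (ι : Type)

/-- the ideal generated by the squares of the variables -/
noncomputable def sqIdeal : Ideal (MvPolynomial ι k) :=
  Ideal.span ((fun s : ι →₀ ℕ => (monomial s) (1 : k)) '' (Set.range fun i : ι => Finsupp.single i 2))

/-- the truncated polynomial ring `k[x_i : i ∈ ι]/(x_i^2)` -/
abbrev TR : Type := MvPolynomial ι k ⧸ sqIdeal k ι

/-- the image of the variable `x_i` -/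
noncomputable def tau (i : ι) : TR k ι := Ideal.Quotient.mkₐ k (sqIdeal k ι) (X i)

variable {k ι}

lemma tau_sq (i : ι) : tau k ι i * tau k ι i = 0 := by
  have h : (X i * X i : MvPolynomial ι k) ∈ sqIdeal k ι := by
    refine Ideal.subset_span ⟨Finsupp.single i 2, ⟨i, rfl⟩, ?_⟩
    simp only [MvPolynomial.X, monomial_mul, one_mul, ← Finsupp.single_add]
  unfold tau
  rw [← map_mul]
  exact Ideal.Quotient.eq_zero_iff_mem.mpr h


lemma adjoin_tau : Algebra.adjoin k (Set.range (tau k ι)) = ⊤ := by
  have h1 : (Ideal.Quotient.mkₐ k (sqIdeal k ι)).range = ⊤ := by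
    rw [AlgHom.range_eq_top]
    exact Ideal.Quotient.mkₐ_surjective k _
  rw [← h1, ← Algebra.map_top, ← MvPolynomial.adjoin_range_X, AlgHom.map_adjoin]
  congr 1
  ext x
  simp [tau]

/-- homomorphisms out of the truncated polynomial ring -/
noncomputable def TRlift {B : Type} [CommRing B] [Algebra k B] (f : ι → B)
    (hf : ∀ i, f i * f i = 0) : TR k ι →ₐ[k] B :=
  Ideal.Quotient.liftₐ (sqIdeal k ι) (aeval f) (by
    intro a ha
    have : sqIdeal k ι ≤ RingHom.ker (aeval f : MvPolynomial ι k →ₐ[k] B) := by
      refine Ideal.span_le.mpr ?_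
      rintro _ ⟨_, ⟨i, rfl⟩, rfl⟩
      have h0 : aeval f (monomial (Finsupp.single i 2) (1 : k)) = 0 := by
        rw [aeval_monomial]
        simp [pow_two, hf i]
      exact h0
    exact this ha)

@[simp] lemma TRlift_tau {B : Type} [CommRing B] [Algebra k B] (f : ι → B)
    (hf : ∀ i, f i * f i = 0) (i : ι) : TRlift f hf (tau k ι i) = f i := by
  unfold TRlift
  rw [tau]
  erw [Ideal.Quotient.liftₐ_apply]
  erw [Ideal.Quotient.lift_mk]
  simp

lemma prod_tau_ne_zero [Fintype ι] : ∏ i : ι, tau k ι i ≠ 0 := by
  classical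
  unfold tau
  rw [← map_prod]
  intro h
  have h' : (∏ i : ι, X i : MvPolynomial ι k) ∈ sqIdeal k ι := Ideal.Quotient.eq_zero_iff_mem.mp h
  unfold sqIdeal at h'
  rw [mem_ideal_span_monomial_image] at h'
  have hp : (∏ i : ι, X i : MvPolynomial ι k) = monomial (∑ i : ι, Finsupp.single i 1) 1 := by
    simp [MvPolynomial.X, monomial_sum_one]
  rw [hp] at h'
  have hs : (∑ i : ι, Finsupp.single i 1) ∈ (monomial (∑ i : ι, Finsupp.single i 1) (1 : k)).support := by
    rw [support_monomial, if_neg one_ne_zero]
    simp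
  obtain ⟨_, ⟨i, rfl⟩, hi⟩ := h' _ hs
  have := hi i
  simp [Finsupp.single_apply, Finsupp.finsetSum_apply] at this

instance finite_TR [Finite k] [Finite ι] : Finite (TR k ι) := by
  cases nonempty_fintype ι
  have hft : Algebra.FiniteType k (TR k ι) := inferInstance
  have hint : Algebra.IsIntegral k (TR k ι) := by
    have hadj : Algebra.adjoin k (Set.range (tau k ι)) = ⊤ := by
      have h1 : (Ideal.Quotient.mkₐ k (sqIdeal k ι)).range = ⊤ := by
        rw [AlgHom.range_eq_top]
        exact Ideal.Quotient.mkₐ_surjective k _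
      rw [← h1, ← Algebra.map_top, ← MvPolynomial.adjoin_range_X, AlgHom.map_adjoin]
      congr 1
      ext x
      simp [tau]
    refine ⟨fun x => ?_⟩
    have hx : x ∈ Algebra.adjoin k (Set.range (tau k ι)) := by rw [hadj]; trivial
    have hle : Algebra.adjoin k (Set.range (tau k ι)) ≤ integralClosure k (TR k ι) := by
      rw [Algebra.adjoin_le_iff]
      rintro _ ⟨i, rfl⟩
      have : IsIntegral k (tau k ι i ^ 2) := by
        rw [pow_two, tau_sq]; exact isIntegral_zero
      exact IsIntegral.of_pow (by norm_num) this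
    exact hle hx
  have : Module.Finite k (TR k ι) := Algebra.IsIntegral.finite
  exact Module.finite_of_finite k

end ring


lemma sum_sq_zero {R ι : Type} [CommRing R] (s : Finset ι) (y : ι → R) (hy : ∀ i, y i * y i = 0) (h2 : (2 : R) = 0) :
    (∑ i ∈ s, y i) * (∑ i ∈ s, y i) = 0 := by
  classical
  induction s using Finset.induction_on with
  | empty => simp
  | insert i s hi ih =>
    rw [Finset.sum_insert hi]
    linear_combination hy i + ih + (y i * ∑ x ∈ s, y x) * h2

lemma prod_one_add {R ι : Type} [CommRing R] (x : R) (hx : x * x = 0) (s : Finset ι) (y : ι → R) :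
    ∏ i ∈ s, (1 + x * y i) = 1 + x * ∑ i ∈ s, y i := by
  classical
  induction s using Finset.induction_on with
  | empty => simp
  | insert i s hi ih =>
    rw [Finset.prod_insert hi, Finset.sum_insert hi, ih]
    linear_combination (y i * ∑ i ∈ s, y i) * hx

lemma two_R (k R : Type) [Field k] [CharP k 2] [CommRing R] [Algebra k R] : (2 : R) = 0 := by
  have h : ((2 : k)) = 0 := CharTwo.two_eq_zero
  rw [← map_ofNat (algebraMap k R) 2, h, map_zero]

lemma add_self_R (k : Type) {R : Type} [Field k] [CharP k 2] [CommRing R] [Algebra k R] (x : R) :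
    x + x = 0 := by
  rw [← two_mul, two_R k R, zero_mul]


end Pool.Agent.H60.EC
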