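import Pool.Agent.H60.EC.Ring

set_option autoImplicit false
set_option linter.unusedSectionVars false

/-!
The algebra `k[t_i, x_j]/(t_i^2, x_j^2)` in characteristic two with the shifts
`x_j ↦ x_j + ∑ a_{ji} t_i` and the scalings.
-/

namespace Pool.Agent.H60.EC

open scoped commutatorElement

/-- A commutative algebra generated by square-zero elements `t i`, `x j`, with the shifts
`x j ↦ x j + T (a j)` and the scalings. -/
structure Sys (k A ι J : Type) [Field k] [CommRing A] [Algebra k A] [Fintype ι] where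
  t : ι → A
  x : J → A
  t_sq : ∀ i, t i * t i = 0
  x_sq : ∀ j, x j * x j = 0
  gen : Algebra.adjoin k (Set.range t ∪ Set.range x) = ⊤
  sh : (J → ι → k) → A →ₐ[k] A
  sh_t : ∀ a i, sh a (t i) = t i
  sh_x : ∀ a j, sh a (x j) = x j + ∑ i, a j i • t i
  sc : k → (J → k) → A →ₐ[k] A
  sc_t : ∀ l u i, sc l u (t i) = l • t i
  sc_x : ∀ l u j, sc l u (x j) = u j • x j

variable {k A ι J : Type} [Field k] [CharP k 2] [CommRing A] [Algebra k A] [Fintype ι] [Fintype J]
  (S : Sys k A ι J)

namespace Sys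

lemma hom_ext {f g : A →ₐ[k] A} (h1 : ∀ i, f (S.t i) = g (S.t i))
    (h2 : ∀ j, f (S.x j) = g (S.x j)) : f = g := by
  apply AlgHom.ext_of_adjoin_eq_top S.gen
  rintro y (⟨i, rfl⟩ | ⟨j, rfl⟩)
  · exact h1 i
  · exact h2 j

/-- the linear form `T a = ∑ a_i t_i` -/
def T (a : ι → k) : A := ∑ i, a i • S.t i

lemma T_sq (a : ι → k) : S.T a * S.T a = 0 := by
  unfold T
  apply sum_sq_zero _ _ _ (two_R k A)
  intro i
  rw [smul_mul_smul_comm, S.t_sq, smul_zero]

lemma T_add (a b : ι → k) : S.T (a + b) = S.T a + S.T b := by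
  simp [T, add_smul, Finset.sum_add_distrib]

@[simp] lemma T_zero : S.T 0 = 0 := by simp [T]

lemma T_smul (c : k) (a : ι → k) : S.T (c • a) = c • S.T a := by
  simp [T, Finset.smul_sum, smul_smul]

lemma sc_T (l : k) (u : J → k) (a : ι → k) : S.sc l u (S.T a) = S.T (l • a) := by
  simp [T, smul_smul, mul_comm, S.sc_t]

lemma sh_T (a : J → ι → k) (c : ι → k) : S.sh a (S.T c) = S.T c := by
  simp [T, S.sh_t]

lemma sh_x' (a : J → ι → k) (j : J) : S.sh a (S.x j) = S.x j + S.T (a j) := S.sh_x a j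

lemma sh_zero : S.sh 0 = AlgHom.id k A := by
  apply S.hom_ext
  · intro i; rw [S.sh_t]; rfl
  · intro j; rw [S.sh_x']; simp

lemma sh_add (a b : J → ι → k) : S.sh (a + b) = (S.sh a).comp (S.sh b) := by
  apply S.hom_ext
  · intro i; simp [S.sh_t]
  · intro j
    simp only [AlgHom.comp_apply, S.sh_x', map_add, S.sh_T, Pi.add_apply, S.T_add]
    ring

lemma sc_one : S.sc 1 1 = AlgHom.id k A := by
  apply S.hom_ext
  · intro i; simp [S.sc_t]
  · intro j; simp [S.sc_x]

lemma sc_mul (l l' : k) (u u' : J → k) : S.sc (l * l') (u * u') = (S.sc l u).comp (S.sc l' u') := by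
  apply S.hom_ext
  · intro i; simp [S.sc_t, smul_smul, mul_comm]
  · intro j; simp [S.sc_x, smul_smul, mul_comm]

lemma sc_sh (l : k) (u : J → k) (a b : J → ι → k) (h : ∀ j, u j • b j = l • a j) :
    (S.sc l u).comp (S.sh a) = (S.sh b).comp (S.sc l u) := by
  apply S.hom_ext
  · intro i; simp [S.sc_t, S.sh_t]
  · intro j
    simp only [AlgHom.comp_apply, S.sh_x', map_add, S.sc_x, S.sc_T, map_smul, smul_add, ← h j,
      S.T_smul]

/-- the unit `∏ (1 + C_{ij} t_i t_j)` attached to a matrix `C` -/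
def phi (C : ι → ι → k) : A := ∏ i, ∏ j, (1 + C i j • (S.t i * S.t j))

lemma phi_add (C D : ι → ι → k) : S.phi (fun i j => C i j + D i j) = S.phi C * S.phi D := by
  unfold phi
  rw [← Finset.prod_mul_distrib]
  refine Finset.prod_congr rfl fun i _ => ?_
  rw [← Finset.prod_mul_distrib]
  refine Finset.prod_congr rfl fun j _ => ?_
  have h := S.t_sq i
  rw [add_smul, Algebra.smul_def, Algebra.smul_def]
  linear_combination (-(algebraMap k A (C i j) * algebraMap k A (D i j) * S.t j * S.t j)) * h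

@[simp] lemma phi_zero : S.phi (0 : ι → ι → k) = 1 := by simp [phi]
@[simp] lemma phi_zero' : S.phi (fun (_ _ : ι) => (0 : k)) = 1 := by simp [phi]

lemma phi_outer (b a : ι → k) : S.phi (fun i j => b i * a j) = 1 + S.T b * S.T a := by
  unfold phi
  have h1 : ∀ i, ∏ j, (1 + (b i * a j) • (S.t i * S.t j)) = 1 + S.T a * (b i • S.t i) := by
    intro i
    have hx : (b i • S.t i) * (b i • S.t i) = 0 := by
      rw [smul_mul_smul_comm, S.t_sq, smul_zero]
    have h2 := prod_one_add (b i • S.t i) hx Finset.univ (fun j => a j • S.t j)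
    rw [mul_comm (S.T a)]
    unfold T
    rw [← h2]
    refine Finset.prod_congr rfl fun j _ => ?_
    rw [smul_mul_smul_comm]
  rw [Finset.prod_congr rfl (fun i _ => h1 i), mul_comm (S.T b)]
  exact prod_one_add _ (S.T_sq a) _ _

lemma sc_phi (l : k) (u : J → k) (C : ι → ι → k) :
    S.sc l u (S.phi C) = S.phi (fun i j => l ^ 2 * C i j) := by
  unfold phi
  rw [map_prod]
  refine Finset.prod_congr rfl fun i _ => ?_
  rw [map_prod]
  refine Finset.prod_congr rfl fun j _ => ?_
  rw [map_add, map_one, map_smul, map_mul, S.sc_t, S.sc_t, smul_mul_smul_comm, smul_smul]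
  congr 2
  ring

lemma sh_phi (a : J → ι → k) (C : ι → ι → k) : S.sh a (S.phi C) = S.phi C := by
  unfold phi
  simp [S.sh_t]

/-- the bilinear map `∑_j a_j ⊗ b_j` -/
def ot (a b : J → ι → k) : ι → ι → k := fun i i' => ∑ j, a j i * b j i'

omit [CharP k 2] in
lemma ot_apply (a b : J → ι → k) (i i' : ι) : ot a b i i' = ∑ j, a j i * b j i' := rfl

lemma phi_sum (s : Finset J) (a b : J → ι → k) :
    S.phi (fun i i' => ∑ j ∈ s, a j i * b j i') = ∏ j ∈ s, (1 + S.T (a j) * S.T (b j)) := by
  classical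
  induction s using Finset.induction_on with
  | empty => simp
  | insert j s hj ih =>
    rw [Finset.prod_insert hj, ← ih, ← S.phi_outer, ← S.phi_add]
    congr 1
    funext i i'
    rw [Finset.sum_insert hj]

lemma phi_ot (a b : J → ι → k) : S.phi (ot a b) = ∏ j, (1 + S.T (a j) * S.T (b j)) :=
  S.phi_sum Finset.univ a b

/-- the unit `∏ (1 + T(b_j) x_j)` -/
def e (b : J → ι → k) : A := ∏ j, (1 + S.T (b j) * S.x j)

lemma e_add (b b' : J → ι → k) : S.e (b + b') = S.e b * S.e b' := by
  unfold e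
  rw [← Finset.prod_mul_distrib]
  refine Finset.prod_congr rfl fun j _ => ?_
  rw [Pi.add_apply, S.T_add]
  linear_combination (-(S.T (b j) * S.T (b' j))) * S.x_sq j

@[simp] lemma e_zero : S.e 0 = 1 := by simp [e]

lemma sh_e (a b : J → ι → k) : S.sh a (S.e b) = S.e b * S.phi (ot a b) := by
  rw [S.phi_ot]
  unfold e
  rw [map_prod, ← Finset.prod_mul_distrib]
  refine Finset.prod_congr rfl fun j _ => ?_
  rw [map_add, map_one, map_mul, S.sh_T, S.sh_x']
  linear_combination (-(S.x j * S.T (a j))) * S.T_sq (b j)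

lemma sc_e (l : k) (u : J → k) (b : J → ι → k) :
    S.sc l u (S.e b) = S.e (fun j => (l * u j) • b j) := by
  unfold e
  rw [map_prod]
  refine Finset.prod_congr rfl fun j _ => ?_
  rw [map_add, map_one, map_mul, S.sc_T, S.sc_x, S.T_smul, S.T_smul, smul_mul_smul_comm,
    smul_mul_assoc]

/-- the action of the triple `(a, b, C)` -/
def rho (a b : J → ι → k) (C : ι → ι → k) (m : A) : A := S.phi C * (S.e b * S.sh a m)

lemma rho_rho (a b a' b' : J → ι → k) (C C' : ι → ι → k) (m : A) :
    S.rho a b C (S.rho a' b' C' m) =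
      S.rho (a + a') (b + b') (fun i i' => C i i' + C' i i' + ot a b' i i') m := by
  unfold rho
  rw [map_mul, map_mul, S.sh_phi, S.sh_e, S.sh_add, S.e_add,
    S.phi_add (fun i i' => C i i' + C' i i') (ot a b'), S.phi_add, AlgHom.comp_apply]
  ring

@[simp] lemma rho_zero (m : A) : S.rho 0 0 0 m = m := by
  unfold rho
  rw [S.sh_zero]
  simp

@[simp] lemma rho_zero' (m : A) : S.rho 0 0 (fun _ _ => 0) m = m := S.rho_zero m

@[simp] lemma rho_apply_zero (a b : J → ι → k) (C : ι → ι → k) : S.rho a b C 0 = 0 := by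
  simp [rho]

lemma rho_add (a b : J → ι → k) (C : ι → ι → k) (m m' : A) :
    S.rho a b C (m + m') = S.rho a b C m + S.rho a b C m' := by
  unfold rho
  rw [map_add]
  ring

lemma rho_Z (C : ι → ι → k) (m : A) : S.rho 0 0 C m = S.phi C * m := by
  unfold rho
  rw [S.sh_zero]
  simp

end Sys

end Pool.Agent.H60.EC
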